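import Mathlib

namespace Pool.Agent.N428.Ram

open Finset Module
open scoped Pointwise

section ordered

variable {W : Type*} [AddCommGroup W] [Module ℚ W] [LinearOrder W] [IsOrderedAddMonoid W]

/-- the span of the differences of `V` and of `Q` -/
def L (V Q : Finset W) : Submodule ℚ W :=
  Submodule.span ℚ (((V - V) ∪ (Q - Q) : Finset W) : Set W)

omit [IsOrderedAddMonoid W] in
lemma sub_mem_left {V Q : Finset W} {v v' : W} (h : v ∈ V) (h' : v' ∈ V) : v - v' ∈ L V Q :=
  Submodule.subset_span (Finset.mem_coe.2 (Finset.mem_union_left _ (Finset.sub_mem_sub h h')))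

omit [IsOrderedAddMonoid W] in
lemma sub_mem_right {V Q : Finset W} {v v' : W} (h : v ∈ Q) (h' : v' ∈ Q) : v - v' ∈ L V Q :=
  Submodule.subset_span (Finset.mem_coe.2 (Finset.mem_union_right _ (Finset.sub_mem_sub h h')))

omit [IsOrderedAddMonoid W] in
lemma L_le {V Q : Finset W} {S : Submodule ℚ W} (h1 : ∀ v ∈ V, ∀ v' ∈ V, v - v' ∈ S)
    (h2 : ∀ v ∈ Q, ∀ v' ∈ Q, v - v' ∈ S) : L V Q ≤ S := by
  refine Submodule.span_le.2 (fun x hx => ?_)
  rcases Finset.mem_union.1 (Finset.mem_coe.1 hx) with h | h
  · obtain ⟨v, hv, v', hv', rfl⟩ := Finset.mem_sub.1 h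
    exact h1 v hv v' hv'
  · obtain ⟨v, hv, v', hv', rfl⟩ := Finset.mem_sub.1 h
    exact h2 v hv v' hv'

/-- one removal step: at least `1 + dim` sums are lost -/
lemma step_dim {V Q : Finset W} {a b : W} (ha : a ∈ V) (hb : b ∈ Q)
    (hamax : ∀ v ∈ V, v ≤ a) (hbmax : ∀ q ∈ Q, q ≤ b) :
    ((V.erase a) + (Q.erase b)).card + (finrank ℚ (L V Q) + 1) ≤ (V + Q).card := by
  classical
  set Δ : Finset W := (V.erase a).image (fun v => v - a) ∪ (Q.erase b).image (fun q => q - b)
    with hΔ
  have hneg : ∀ δ ∈ Δ, δ < 0 := by
    intro δ hδ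
    rcases Finset.mem_union.1 hδ with h | h
    · obtain ⟨v, hv, rfl⟩ := Finset.mem_image.1 h
      rw [Finset.mem_erase] at hv
      exact sub_neg.2 (lt_of_le_of_ne (hamax v hv.2) hv.1)
    · obtain ⟨v, hv, rfl⟩ := Finset.mem_image.1 h
      rw [Finset.mem_erase] at hv
      exact sub_neg.2 (lt_of_le_of_ne (hbmax v hv.2) hv.1)
  set Irr : Finset W := Δ.filter (fun δ => a + b + δ ∉ (V.erase a) + (Q.erase b)) with hIrr
  have hIrrΔ : ∀ δ ∈ Irr, δ ∈ Δ := fun δ hδ => (Finset.mem_filter.1 hδ).1
  -- the irreducible elements span
  have hspan : ∀ δ ∈ Δ, δ ∈ Submodule.span ℚ (Irr : Set W) := by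
    by_contra hcon
    push Not at hcon
    obtain ⟨δ0, hδ0, hδ0'⟩ := hcon
    set Bad : Finset W := Δ.filter (fun δ => δ ∉ Submodule.span ℚ (Irr : Set W)) with hBad
    have hne : Bad.Nonempty := ⟨δ0, Finset.mem_filter.2 ⟨hδ0, hδ0'⟩⟩
    set δ := Bad.max' hne with hδ
    have hδmem : δ ∈ Bad := Finset.max'_mem _ _
    have hδΔ : δ ∈ Δ := (Finset.mem_filter.1 hδmem).1
    have hδs : δ ∉ Submodule.span ℚ (Irr : Set W) := (Finset.mem_filter.1 hδmem).2
    have hred : a + b + δ ∈ (V.erase a) + (Q.erase b) := by
      by_contra h
      exact hδs (Submodule.subset_span (Finset.mem_coe.2 (Finset.mem_filter.2 ⟨hδΔ, h⟩)))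
    obtain ⟨v, hv, q, hq, hvq⟩ := Finset.mem_add.1 hred
    have h1 : v - a ∈ Δ := Finset.mem_union_left _ (Finset.mem_image_of_mem _ hv)
    have h2 : q - b ∈ Δ := Finset.mem_union_right _
      (Finset.mem_image_of_mem (fun q => q - b) hq)
    have hsum : δ = (v - a) + (q - b) := by
      have : δ = v + q - a - b := by rw [hvq]; abel
      rw [this]; abel
    have hgood : ∀ x ∈ Δ, δ < x → x ∈ Submodule.span ℚ (Irr : Set W) := by
      intro x hx hlt
      by_contra hxs
      have : x ≤ δ := Finset.le_max' _ _ (Finset.mem_filter.2 ⟨hx, hxs⟩)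
      exact absurd hlt (not_lt.2 this)
    apply hδs
    rw [hsum]
    refine Submodule.add_mem _ (hgood _ h1 ?_) (hgood _ h2 ?_)
    · rw [hsum]
      have := hneg _ h2
      exact add_lt_of_neg_right _ this
    · rw [hsum]
      have := hneg _ h1
      exact add_lt_of_neg_left _ this
  have hLle : L V Q ≤ Submodule.span ℚ (Irr : Set W) := by
    apply L_le
    · have key : ∀ v ∈ V, v - a ∈ Submodule.span ℚ (Irr : Set W) := by
        intro v hv
        by_cases h : v = a
        · rw [h, sub_self]; exact Submodule.zero_mem _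
        · exact hspan _ (Finset.mem_union_left _
            (Finset.mem_image_of_mem (fun v => v - a) (Finset.mem_erase.2 ⟨h, hv⟩)))
      intro v hv v' hv'
      have : v - v' = (v - a) - (v' - a) := by abel
      rw [this]
      exact Submodule.sub_mem _ (key v hv) (key v' hv')
    · have key : ∀ v ∈ Q, v - b ∈ Submodule.span ℚ (Irr : Set W) := by
        intro v hv
        by_cases h : v = b
        · rw [h, sub_self]; exact Submodule.zero_mem _
        · exact hspan _ (Finset.mem_union_right _
            (Finset.mem_image_of_mem (fun q => q - b) (Finset.mem_erase.2 ⟨h, hv⟩)))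
      intro v hv v' hv'
      have : v - v' = (v - b) - (v' - b) := by abel
      rw [this]
      exact Submodule.sub_mem _ (key v hv) (key v' hv')
  have hfin : finrank ℚ (L V Q) ≤ Irr.card := by
    have h1 : finrank ℚ (L V Q) ≤ finrank ℚ (Submodule.span ℚ (Irr : Set W)) := by
      have : FiniteDimensional ℚ (Submodule.span ℚ (Irr : Set W)) :=
        FiniteDimensional.span_finset ℚ Irr
      exact Submodule.finrank_mono hLle
    exact h1.trans (finrank_span_finset_le_card Irr)
  -- the lost sums
  set Lost : Finset W := insert (a + b) (Irr.image (fun δ => a + b + δ)) with hLost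
  have hLcard : Lost.card = Irr.card + 1 := by
    rw [hLost, Finset.card_insert_of_notMem, Finset.card_image_of_injective]
    · intro x y hxy
      exact add_left_cancel hxy
    · intro h
      obtain ⟨δ, hδ, h'⟩ := Finset.mem_image.1 h
      have : δ = 0 := by simpa using h'
      exact absurd (hneg δ (hIrrΔ δ hδ)) (by rw [this]; exact lt_irrefl _)
  have hdisj : Disjoint ((V.erase a) + (Q.erase b)) Lost := by
    rw [Finset.disjoint_left]
    intro x hx hx'
    rcases Finset.mem_insert.1 hx' with h | h
    · obtain ⟨v, hv, q, hq, hvq⟩ := Finset.mem_add.1 hx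
      rw [Finset.mem_erase] at hv hq
      have h1 : v < a := lt_of_le_of_ne (hamax v hv.2) hv.1
      have h2 : q < b := lt_of_le_of_ne (hbmax q hq.2) hq.1
      have : v + q < a + b := add_lt_add h1 h2
      rw [hvq, h] at this
      exact lt_irrefl _ this
    · obtain ⟨δ, hδ, h'⟩ := Finset.mem_image.1 h
      exact (Finset.mem_filter.1 hδ).2 (h' ▸ hx)
  have hsub : ((V.erase a) + (Q.erase b)) ∪ Lost ⊆ V + Q := by
    apply Finset.union_subset
    · exact Finset.add_subset_add (Finset.erase_subset _ _) (Finset.erase_subset _ _)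
    · intro x hx
      rcases Finset.mem_insert.1 hx with h | h
      · rw [h]; exact Finset.add_mem_add ha hb
      · obtain ⟨δ, hδ, h'⟩ := Finset.mem_image.1 h
        rcases Finset.mem_union.1 (hIrrΔ δ hδ) with h1 | h1
        · obtain ⟨v, hv, rfl⟩ := Finset.mem_image.1 h1
          have : x = v + b := by rw [← h']; abel
          rw [this]; exact Finset.add_mem_add (Finset.mem_of_mem_erase hv) hb
        · obtain ⟨v, hv, rfl⟩ := Finset.mem_image.1 h1
          have : x = a + v := by rw [← h']; abel
          rw [this]; exact Finset.add_mem_add ha (Finset.mem_of_mem_erase hv)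
  have := Finset.card_le_card hsub
  rw [Finset.card_union_of_disjoint hdisj, hLcard] at this
  omega

/-- the main lemma -/
lemma dim_mul_card_le (m : ℕ) : ∀ V Q : Finset W, V.card = m → V.Nonempty → V.card ≤ Q.card →
    finrank ℚ (L V Q) * m ≤ 3 * (V + Q).card := by
  classical
  induction m with
  | zero => intro V Q hV hne _; simp at hV; exact absurd hV hne.ne_empty
  | succ m ih =>
    intro V Q hV hVne hVQ
    have hQne : Q.Nonempty := by
      rw [← Finset.card_pos]; omega
    set a := V.max' hVne with ha
    set b := Q.max' hQne with hb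
    have hamem : a ∈ V := Finset.max'_mem _ _
    have hbmem : b ∈ Q := Finset.max'_mem _ _
    have hstep := step_dim hamem hbmem (fun v hv => Finset.le_max' _ _ hv)
      (fun q hq => Finset.le_max' _ _ hq)
    set V' := V.erase a with hV'
    set Q' := Q.erase b with hQ'
    have hV'card : V'.card = m := by rw [hV', Finset.card_erase_of_mem hamem]; omega
    have hQ'card : Q'.card = Q.card - 1 := by rw [hQ', Finset.card_erase_of_mem hbmem]
    rcases Nat.eq_zero_or_pos m with hm | hm
    · -- V is a singleton
      have hd : finrank ℚ (L V Q) + 1 ≤ (V + Q).card := by omega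
      rw [hm]
      omega
    have hV'ne : V'.Nonempty := by rw [← Finset.card_pos]; omega
    have hQ'ne : Q'.Nonempty := by rw [← Finset.card_pos]; omega
    have hih := ih V' Q' hV'card hV'ne (by omega)
    obtain ⟨v0, hv0⟩ := hV'ne
    obtain ⟨q0, hq0⟩ := hQ'ne
    set L' := L V' Q' with hL'
    have hL'fin : FiniteDimensional ℚ L' := FiniteDimensional.span_finset ℚ _
    -- L ≤ L' + span {a - v0, b - q0}
    have hLle : L V Q ≤ L' ⊔ Submodule.span ℚ (({a - v0, b - q0} : Finset W) : Set W) := by
      apply L_le
      · have key : ∀ v ∈ V, v - v0 ∈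
            L' ⊔ Submodule.span ℚ (({a - v0, b - q0} : Finset W) : Set W) := by
          intro v hv
          by_cases h : v = a
          · rw [h]
            refine Submodule.mem_sup_right (Submodule.subset_span ?_)
            simp
          · exact Submodule.mem_sup_left (sub_mem_left (Finset.mem_erase.2 ⟨h, hv⟩) hv0)
        intro v hv v' hv'
        have : v - v' = (v - v0) - (v' - v0) := by abel
        rw [this]
        exact Submodule.sub_mem _ (key v hv) (key v' hv')
      · have key : ∀ v ∈ Q, v - q0 ∈
            L' ⊔ Submodule.span ℚ (({a - v0, b - q0} : Finset W) : Set W) := by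
          intro v hv
          by_cases h : v = b
          · rw [h]
            refine Submodule.mem_sup_right (Submodule.subset_span ?_)
            simp
          · exact Submodule.mem_sup_left (sub_mem_right (Finset.mem_erase.2 ⟨h, hv⟩) hq0)
        intro v hv v' hv'
        have : v - v' = (v - q0) - (v' - q0) := by abel
        rw [this]
        exact Submodule.sub_mem _ (key v hv) (key v' hv')
    have hD2 : finrank ℚ (L V Q) ≤ finrank ℚ L' + 2 := by
      have : FiniteDimensional ℚ (Submodule.span ℚ (({a - v0, b - q0} : Finset W) : Set W)) :=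
        FiniteDimensional.span_finset ℚ _
      have h1 := Submodule.finrank_mono hLle
      have h2 := Submodule.finrank_add_le_finrank_add_finrank L'
        (Submodule.span ℚ (({a - v0, b - q0} : Finset W) : Set W))
      have h3 : finrank ℚ (Submodule.span ℚ (({a - v0, b - q0} : Finset W) : Set W)) ≤ 2 :=
        (finrank_span_finset_le_card _).trans Finset.card_le_two
      omega
    by_cases hsame : a - v0 ∈ L' ∧ b - q0 ∈ L'
    · -- the dimension does not drop
      have hle : L V Q ≤ L' := by
        refine hLle.trans (sup_le le_rfl (Submodule.span_le.2 ?_))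
        intro x hx
        rcases Finset.mem_insert.1 (Finset.mem_coe.1 hx) with h | h
        · rw [h]; exact hsame.1
        · rw [Finset.mem_singleton.1 h]; exact hsame.2
      have hD : finrank ℚ (L V Q) ≤ finrank ℚ L' := Submodule.finrank_mono hle
      have : finrank ℚ (L V Q) * m ≤ finrank ℚ L' * m := Nat.mul_le_mul_right _ hD
      nlinarith
    · -- the dimension drops
      have hlost : (V' + Q').card + m ≤ (V + Q).card := by
        rw [not_and_or] at hsame
        rcases hsame with h | h
        · have hdisj : Disjoint (V' + Q') (Q'.image (fun q => a + q)) := by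
            rw [Finset.disjoint_left]
            intro x hx hx'
            obtain ⟨q, hq, rfl⟩ := Finset.mem_image.1 hx'
            obtain ⟨v1, hv1, q1, hq1, h1⟩ := Finset.mem_add.1 hx
            apply h
            have : a - v0 = (v1 - v0) + (q1 - q) := by
              have : a = v1 + q1 - q := by rw [h1]; abel
              rw [this]; abel
            rw [this]
            exact Submodule.add_mem _ (sub_mem_left hv1 hv0) (sub_mem_right hq1 hq)
          have hsub : (V' + Q') ∪ (Q'.image (fun q => a + q)) ⊆ V + Q := by
            apply Finset.union_subset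
            · exact Finset.add_subset_add (Finset.erase_subset _ _) (Finset.erase_subset _ _)
            · intro x hx
              obtain ⟨q, hq, rfl⟩ := Finset.mem_image.1 hx
              exact Finset.add_mem_add hamem (Finset.mem_of_mem_erase hq)
          have := Finset.card_le_card hsub
          rw [Finset.card_union_of_disjoint hdisj,
            Finset.card_image_of_injective _ (add_right_injective a)] at this
          omega
        · have hdisj : Disjoint (V' + Q') (V'.image (fun v => v + b)) := by
            rw [Finset.disjoint_left]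
            intro x hx hx'
            obtain ⟨v, hv, rfl⟩ := Finset.mem_image.1 hx'
            obtain ⟨v1, hv1, q1, hq1, h1⟩ := Finset.mem_add.1 hx
            apply h
            have : b - q0 = (v1 - v) + (q1 - q0) := by
              have : b = v1 + q1 - v := by rw [h1]; abel
              rw [this]; abel
            rw [this]
            exact Submodule.add_mem _ (sub_mem_left hv1 hv) (sub_mem_right hq1 hq0)
          have hsub : (V' + Q') ∪ (V'.image (fun v => v + b)) ⊆ V + Q := by
            apply Finset.union_subset
            · exact Finset.add_subset_add (Finset.erase_subset _ _) (Finset.erase_subset _ _)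
            · intro x hx
              obtain ⟨v, hv, rfl⟩ := Finset.mem_image.1 hx
              exact Finset.add_mem_add (Finset.mem_of_mem_erase hv) hbmem
          have := Finset.card_le_card hsub
          rw [Finset.card_union_of_disjoint hdisj,
            Finset.card_image_of_injective _ (add_left_injective b)] at this
          omega
      -- D (m+1) ≤ 3 |V + Q|
      rcases Nat.lt_or_ge (finrank ℚ L') (finrank ℚ (L V Q)) with hlt | hge
      · have e : finrank ℚ (L V Q) * (m + 1) ≤ finrank ℚ L' * m + 2 * m + finrank ℚ (L V Q) := by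
          nlinarith
        omega
      · have : finrank ℚ (L V Q) * m ≤ finrank ℚ L' * m := Nat.mul_le_mul_right _ hge
        nlinarith

end ordered

section layer

variable {W : Type*} [AddCommGroup W] [Module ℚ W] [LinearOrder W] [IsOrderedAddMonoid W]
variable {G : Type*} [AddCommGroup G] [DecidableEq G]

/-- The weighted version: a Freiman homomorphism with an image of large dimension. -/
lemma rank_mul_card_le (A : Finset G) (ψ : G → W)
    (hψ : ∀ a ∈ A, ∀ b ∈ A, ∀ c ∈ A, ∀ d ∈ A, a - b = c - d → ψ a - ψ b = ψ c - ψ d) :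
    finrank ℚ (Submodule.span ℚ ((A.image ψ - A.image ψ : Finset W) : Set W)) * A.card ≤
      3 * (A - A).card := by
  classical
  set P := A.image ψ with hP
  set r := finrank ℚ (Submodule.span ℚ ((P - P : Finset W) : Set W)) with hr
  set w : W → ℕ := fun p => (A.filter (fun a => ψ a = p)).card with hw
  set V : ℕ → Finset W := fun j => P.filter (fun p => j < w p) with hV
  -- the sum of the sizes of the layers
  have hsum : ∑ j ∈ Finset.range A.card, (V j).card = A.card := by
    have h1 : A.card = ∑ p ∈ P, w p :=
      Finset.card_eq_sum_card_fiberwise (fun a ha => Finset.mem_image_of_mem ψ ha)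
    have h2 : ∀ p ∈ P, w p = ∑ j ∈ Finset.range A.card, if j < w p then 1 else 0 := by
      intro p _
      rw [← Finset.card_filter]
      have : (Finset.range A.card).filter (fun j => j < w p) = Finset.range (w p) := by
        ext j
        simp only [Finset.mem_filter, Finset.mem_range]
        have : w p ≤ A.card := Finset.card_filter_le _ _
        omega
      rw [this, Finset.card_range]
    calc ∑ j ∈ Finset.range A.card, (V j).card
        = ∑ j ∈ Finset.range A.card, ∑ p ∈ P, if j < w p then 1 else 0 := by
          refine Finset.sum_congr rfl (fun j _ => ?_)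
          rw [hV, Finset.card_filter]
      _ = ∑ p ∈ P, ∑ j ∈ Finset.range A.card, if j < w p then 1 else 0 := Finset.sum_comm
      _ = ∑ p ∈ P, w p := (Finset.sum_congr rfl h2).symm
      _ = A.card := h1.symm
  -- the bound for each layer
  have hlayer : ∀ j, r * (V j).card ≤ 3 * (V j + (-P)).card := by
    intro j
    rcases (V j).eq_empty_or_nonempty with h | h
    · rw [h]; simp
    · have hle : (V j).card ≤ (-P).card := by
        rw [Finset.card_neg]
        exact Finset.card_filter_le _ _
      have h1 := dim_mul_card_le _ (V j) (-P) rfl h hle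
      have hfd : FiniteDimensional ℚ (L (V j) (-P)) := FiniteDimensional.span_finset ℚ _
      have h2 : r ≤ finrank ℚ (L (V j) (-P)) := by
        apply Submodule.finrank_mono
        refine Submodule.span_le.2 (fun x hx => ?_)
        obtain ⟨p, hp, q, hq, rfl⟩ := Finset.mem_sub.1 (Finset.mem_coe.1 hx)
        have : p - q = (-q) - (-p) := by abel
        rw [this]
        exact sub_mem_right (Finset.neg_mem_neg hq) (Finset.neg_mem_neg hp)
      exact (Nat.mul_le_mul_right _ h2).trans h1
  -- the map on the differences
  have hrep : ∀ u ∈ A - A, ∃ x : G × G, x.1 ∈ A ∧ x.2 ∈ A ∧ x.1 - x.2 = u := by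
    intro u hu
    obtain ⟨a, ha, b, hb, h⟩ := Finset.mem_sub.1 hu
    exact ⟨(a, b), ha, hb, h⟩
  choose! rep hrep1 hrep2 hrep3 using hrep
  set φ : G → W := fun u => ψ (rep u).1 - ψ (rep u).2 with hφ
  have hφ' : ∀ a ∈ A, ∀ b ∈ A, φ (a - b) = ψ a - ψ b := by
    intro a ha b hb
    have hu : a - b ∈ A - A := Finset.sub_mem_sub ha hb
    exact hψ _ (hrep1 _ hu) _ (hrep2 _ hu) a ha b hb (hrep3 _ hu)
  set U := A - A with hU
  have hfib : ∀ j, ∀ v ∈ V j + (-P), j < (U.filter (fun u => φ u = v)).card := by
    intro j v hv
    obtain ⟨p, hp, q, hq, rfl⟩ := Finset.mem_add.1 hv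
    have hjp : j < w p := (Finset.mem_filter.1 hp).2
    obtain ⟨b, hb, hbq⟩ := Finset.mem_image.1 (Finset.mem_neg'.1 hq)
    refine lt_of_lt_of_le hjp ?_
    refine Finset.card_le_card_of_injOn (fun a => a - b) ?_ ?_
    · intro a ha
      have ha' := Finset.mem_filter.1 (Finset.mem_coe.1 ha)
      refine Finset.mem_coe.2 (Finset.mem_filter.2 ⟨Finset.sub_mem_sub ha'.1 hb, ?_⟩)
      rw [hφ' a ha'.1 b hb, ha'.2, hbq]
      abel
    · intro a _ a' _ h
      exact sub_left_injective h
  have htotal : ∑ j ∈ Finset.range A.card, (V j + (-P)).card ≤ U.card := by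
    have hsub : ∀ j, V j + (-P) ⊆ U.image φ := by
      intro j v hv
      have := hfib j v hv
      have hpos : 0 < (U.filter (fun u => φ u = v)).card := by omega
      obtain ⟨u, hu⟩ := Finset.card_pos.1 hpos
      rw [Finset.mem_filter] at hu
      exact Finset.mem_image.2 ⟨u, hu.1, hu.2⟩
    have h1 : ∀ j, (V j + (-P)).card = ∑ v ∈ U.image φ, if v ∈ V j + (-P) then 1 else 0 := by
      intro j
      rw [← Finset.card_filter]
      congr 1
      ext v
      simp only [Finset.mem_filter]
      exact ⟨fun h => ⟨hsub j h, h⟩, fun h => h.2⟩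
    calc ∑ j ∈ Finset.range A.card, (V j + (-P)).card
        = ∑ v ∈ U.image φ, ∑ j ∈ Finset.range A.card, if v ∈ V j + (-P) then 1 else 0 := by
          rw [Finset.sum_comm]
          exact Finset.sum_congr rfl (fun j _ => h1 j)
      _ ≤ ∑ v ∈ U.image φ, (U.filter (fun u => φ u = v)).card := by
          refine Finset.sum_le_sum (fun v _ => ?_)
          rw [← Finset.card_filter]
          have : (Finset.range A.card).filter (fun j => v ∈ V j + (-P)) ⊆
              Finset.range (U.filter (fun u => φ u = v)).card := by
            intro j hj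
            rw [Finset.mem_filter] at hj
            exact Finset.mem_range.2 (hfib j v hj.2)
          have := Finset.card_le_card this
          rwa [Finset.card_range] at this
      _ = U.card := (Finset.card_eq_sum_card_image φ U).symm
  calc r * A.card = ∑ j ∈ Finset.range A.card, r * (V j).card := by
        rw [← Finset.mul_sum, hsum]
    _ ≤ ∑ j ∈ Finset.range A.card, 3 * (V j + (-P)).card := Finset.sum_le_sum (fun j _ => hlayer j)
    _ = 3 * ∑ j ∈ Finset.range A.card, (V j + (-P)).card := by rw [Finset.mul_sum]
    _ ≤ 3 * U.card := Nat.mul_le_mul_left _ htotal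

end layer

section rankbound

variable {G : Type*} [AddCommGroup G] [DecidableEq G]

/-- Freiman's lemma for a map to a space which embeds in an ordered one. -/
lemma finrank_le_of_equiv {W : Type*} [AddCommGroup W] [Module ℚ W] [LinearOrder W]
    [IsOrderedAddMonoid W] [FiniteDimensional ℚ W] (A : Finset G) (ψ : G → W)
    (hψ : ∀ a ∈ A, ∀ b ∈ A, ∀ c ∈ A, ∀ d ∈ A, a - b = c - d → ψ a - ψ b = ψ c - ψ d)
    (hspan : Submodule.span ℚ (ψ '' (A : Set G)) = ⊤) :
    finrank ℚ W * A.card ≤ 3 * (A - A).card + A.card := by
  classical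
  rcases A.eq_empty_or_nonempty with hA | ⟨a0, ha0⟩
  · subst hA; simp
  have h := rank_mul_card_le A ψ hψ
  set P := A.image ψ with hP
  set S := Submodule.span ℚ ((P - P : Finset W) : Set W) with hS
  have htop : S ⊔ Submodule.span ℚ {ψ a0} = ⊤ := by
    rw [eq_top_iff, ← hspan]
    refine Submodule.span_le.2 ?_
    rintro _ ⟨a, ha, rfl⟩
    have : ψ a = (ψ a - ψ a0) + ψ a0 := by abel
    rw [SetLike.mem_coe, this]
    refine Submodule.add_mem _ (Submodule.mem_sup_left (Submodule.subset_span ?_))
      (Submodule.mem_sup_right (Submodule.subset_span rfl))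
    exact Finset.mem_coe.2 (Finset.sub_mem_sub (Finset.mem_image_of_mem _ (Finset.mem_coe.1 ha))
      (Finset.mem_image_of_mem _ ha0))
  have hdim : finrank ℚ W ≤ finrank ℚ S + 1 := by
    have h1 := Submodule.finrank_add_le_finrank_add_finrank S
      (Submodule.span ℚ {ψ a0})
    rw [htop, finrank_top] at h1
    have h2 : finrank ℚ (Submodule.span ℚ {ψ a0}) ≤ 1 := by
      have := finrank_span_finset_le_card (R := ℚ) ({ψ a0} : Finset W)
      rw [Finset.coe_singleton, Finset.card_singleton] at this
      exact this
    omega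
  calc finrank ℚ W * A.card ≤ (finrank ℚ S + 1) * A.card := Nat.mul_le_mul_right _ hdim
    _ = finrank ℚ S * A.card + A.card := by ring
    _ ≤ 3 * (A - A).card + A.card := by omega

/-- Freiman's lemma for a map to an arbitrary finite-dimensional space. -/
lemma finrank_le_of_spanning (A : Finset G) {E : Type*} [AddCommGroup E] [Module ℚ E]
    [FiniteDimensional ℚ E] (ψ : G → E)
    (hψ : ∀ a ∈ A, ∀ b ∈ A, ∀ c ∈ A, ∀ d ∈ A, a - b = c - d → ψ a - ψ b = ψ c - ψ d)
    (hspan : Submodule.span ℚ (ψ '' (A : Set G)) = ⊤) :
    finrank ℚ E * A.card ≤ 3 * (A - A).card + A.card := by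
  let f : E ≃ₗ[ℚ] Lex (Fin (finrank ℚ E) → ℚ) := (finBasis ℚ E).equivFun
  have hfd : FiniteDimensional ℚ (Lex (Fin (finrank ℚ E) → ℚ)) := LinearEquiv.finiteDimensional f
  have h := finrank_le_of_equiv A (fun g => f (ψ g)) (by
    intro a ha b hb c hc d hd h
    show f (ψ a) - f (ψ b) = f (ψ c) - f (ψ d)
    rw [← map_sub, ← map_sub, hψ a ha b hb c hc d hd h]) (by
    have h1 : Submodule.map (f : E →ₗ[ℚ] Lex (Fin (finrank ℚ E) → ℚ))
        (Submodule.span ℚ (ψ '' (A : Set G))) =
        Submodule.span ℚ (f '' (ψ '' (A : Set G))) := Submodule.map_span _ _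
    rw [hspan, Submodule.map_top, LinearEquiv.range, Set.image_image] at h1
    exact h1.symm)
  rwa [← LinearEquiv.finrank_eq f] at h

end rankbound

end Pool.Agent.N428.Ram
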