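import Mathlib

namespace Pool.Agent.N428.Ram

open Finset Module

section kernel

variable {ι : Type*} [Fintype ι] [DecidableEq ι]

lemma card_quotient_range (M : Matrix ι ι ℤ) (hM : M.det ≠ 0) :
    Nat.card ((ι → ℤ) ⧸ (LinearMap.range M.mulVecLin)) = M.det.natAbs := by
  have hinj : Function.Injective M.mulVecLin := by
    rw [← LinearMap.ker_eq_bot, LinearMap.ker_eq_bot']
    intro x hx
    exact Matrix.eq_zero_of_mulVec_eq_zero hM hx
  have h := Submodule.natAbs_det_equiv (LinearMap.range M.mulVecLin)
    (LinearEquiv.ofInjective M.mulVecLin hinj)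
  rw [← h]
  congr 1
  have : (LinearMap.range M.mulVecLin).subtype ∘ₗ AddMonoidHom.toIntLinearMap
      ((LinearEquiv.ofInjective M.mulVecLin hinj : (ι → ℤ) ≃ₗ[ℤ] _) :
        (ι → ℤ) →+ (LinearMap.range M.mulVecLin)) = M.mulVecLin := by
    ext x
    rfl
  rw [this, ← Matrix.toLin'_apply', LinearMap.det_toLin']

/-- The number of solutions of a nonsingular integral system modulo `L`. -/
lemma card_ker_le (M : Matrix ι ι ℤ) (hM : M.det ≠ 0) (L : ℕ) [NeZero L] :
    (Finset.univ.filter (fun x : ι → ZMod L => ∀ i, ∑ j, (M i j : ZMod L) * x j = 0)).card ≤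
      M.det.natAbs := by
  classical
  rw [← card_quotient_range M hM]
  have hfin : Finite ((ι → ℤ) ⧸ (LinearMap.range M.mulVecLin)) := by
    apply Nat.finite_of_card_ne_zero
    rw [card_quotient_range M hM]
    exact Int.natAbs_ne_zero.2 hM
  have := Fintype.ofFinite ((ι → ℤ) ⧸ (LinearMap.range M.mulVecLin))
  rw [Nat.card_eq_fintype_card, ← Finset.card_univ]
  set lift : (ι → ZMod L) → (ι → ℤ) := fun x j => ((x j).val : ℤ) with hlift
  set z : (ι → ZMod L) → (ι → ℤ) := fun x i => (M.mulVec (lift x) i) / (L : ℤ) with hz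
  have hLne : (L : ℤ) ≠ 0 := by exact_mod_cast NeZero.ne L
  have hzeq : ∀ x : ι → ZMod L, (∀ i, ∑ j, (M i j : ZMod L) * x j = 0) →
      M.mulVec (lift x) = (L : ℤ) • z x := by
    intro x hx
    funext i
    have hdvd : (L : ℤ) ∣ M.mulVec (lift x) i := by
      rw [← ZMod.intCast_zmod_eq_zero_iff_dvd]
      rw [Matrix.mulVec, dotProduct]
      push_cast
      rw [← hx i]
      refine Finset.sum_congr rfl (fun j _ => ?_)
      congr 1
      simp [hlift]
    show _ = (L : ℤ) * (M.mulVec (lift x) i / (L : ℤ))
    rw [Int.mul_ediv_cancel' hdvd]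
  refine Finset.card_le_card_of_injOn
    (fun x => Submodule.Quotient.mk (z x)) (fun _ _ => Finset.mem_coe.2 (Finset.mem_univ _)) ?_
  intro x hx y hy hxy
  have hx' := (Finset.mem_filter.1 (Finset.mem_coe.1 hx)).2
  have hy' := (Finset.mem_filter.1 (Finset.mem_coe.1 hy)).2
  obtain ⟨w, hw⟩ := (Submodule.Quotient.eq _).1 hxy
  have hw' : M.mulVec w = z x - z y := hw
  have h1 : M.mulVec (lift x - lift y) = M.mulVec ((L : ℤ) • w) := by
    rw [Matrix.mulVec_sub, Matrix.mulVec_smul, hzeq x hx', hzeq y hy', hw', smul_sub]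
  have h2 : lift x - lift y = (L : ℤ) • w := by
    have : M.mulVec (lift x - lift y - (L : ℤ) • w) = 0 := by
      rw [Matrix.mulVec_sub, h1, sub_self]
    exact sub_eq_zero.1 (Matrix.eq_zero_of_mulVec_eq_zero hM this)
  funext j
  have h3 := congrFun h2 j
  have h4 : (((x j).val : ℤ) : ZMod L) - (((y j).val : ℤ) : ZMod L) =
      (((L : ℤ) * w j : ℤ) : ZMod L) := by
    rw [← Int.cast_sub]
    congr 1
  simp only [Int.cast_natCast, ZMod.natCast_zmod_val, Int.cast_mul,
    CharP.cast_eq_zero, zero_mul] at h4
  exact sub_eq_zero.1 h4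

/-- The determinant is at most the product of the `ℓ₁` norms of the rows. -/
lemma natAbs_det_le (M : Matrix ι ι ℤ) : M.det.natAbs ≤ ∏ i, ∑ j, (M i j).natAbs := by
  have h1 : M.det.natAbs ≤ ∑ σ : Equiv.Perm ι, ∏ i, (M i (σ i)).natAbs := by
    rw [← Matrix.det_transpose, Matrix.det_apply]
    refine (Int.natAbs_sum_le _ _).trans ?_
    refine Finset.sum_le_sum (fun σ _ => ?_)
    have h2 : (Equiv.Perm.sign σ • ∏ i, Matrix.transpose M (σ i) i).natAbs =
        (∏ i, M i (σ i)).natAbs := by
      rcases Int.units_eq_one_or (Equiv.Perm.sign σ) with h | h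
      · rw [h, one_smul]; rfl
      · rw [h, Units.neg_smul, one_smul, Int.natAbs_neg]; rfl
    rw [h2, ← Int.natAbsHom_apply, map_prod]
    rfl
  refine h1.trans ?_
  rw [Finset.prod_univ_sum]
  have h2 : ∑ σ : Equiv.Perm ι, ∏ i, (M i (σ i)).natAbs =
      ∑ f ∈ Finset.univ.map
        (⟨fun σ : Equiv.Perm ι => (σ : ι → ι), DFunLike.coe_injective⟩ :
          Equiv.Perm ι ↪ (ι → ι)), ∏ i, (M i (f i)).natAbs := by
    rw [Finset.sum_map]
    rfl
  rw [h2]
  refine Finset.sum_le_sum_of_subset (fun f _ => ?_)
  simp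

end kernel

section solutions

variable {ι : Type*} [Fintype ι] [DecidableEq ι] {κ : Type*} [Fintype κ] [DecidableEq κ]

omit [DecidableEq κ] in
/-- The number of solutions modulo `L` of a system of independent equations with small integral
coefficients. -/
lemma card_sol_le (v : κ → ι → ℤ) (hv : LinearIndependent ℚ (fun k j => (v k j : ℚ))) (B : ℕ)
    (hB : ∀ k, ∑ j, (v k j).natAbs ≤ B) (L : ℕ) [NeZero L] :
    Fintype.card κ ≤ Fintype.card ι ∧
    (Finset.univ.filter (fun x : ι → ZMod L => ∀ k, ∑ j, (v k j : ZMod L) * x j = 0)).card ≤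
      L ^ (Fintype.card ι - Fintype.card κ) * B ^ (Fintype.card κ) := by
  classical
  set Uz : κ ⊕ ι → (ι → ℤ) := Sum.elim v (fun i => Pi.single i 1) with hUz
  set U : κ ⊕ ι → (ι → ℚ) := fun x j => (Uz x j : ℚ) with hU
  have hI : LinearIndepOn ℚ U (Set.range Sum.inl) := by
    rw [LinearIndepOn]
    have : LinearIndependent ℚ (U ∘ Sum.inl) := by
      have e : U ∘ Sum.inl = (fun k j => (v k j : ℚ)) := by
        funext k j
        simp [hU, hUz]
      rw [e]; exact hv
    exact (linearIndependent_equiv' (Equiv.ofInjective (Sum.inl : κ → κ ⊕ ι) Sum.inl_injective)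
      (by rfl)).1 this
  obtain ⟨b, -, hsub, hspan, hlin⟩ := exists_linearIndepOn_extension hI (Set.subset_univ _)
  have hspan' : ⊤ ≤ Submodule.span ℚ (Set.range (fun x : b => U x)) := by
    have h1 : Set.range (fun x : b => U x) = U '' b := by
      ext y; simp
    rw [h1]
    have h2 : (⊤ : Submodule ℚ (ι → ℚ)) ≤ Submodule.span ℚ (U '' Set.univ) := by
      rw [← (Pi.basisFun ℚ ι).span_eq]
      refine Submodule.span_mono ?_
      rintro _ ⟨i, rfl⟩
      refine ⟨Sum.inr i, Set.mem_univ _, ?_⟩
      funext j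
      simp only [hU, hUz, Sum.elim_inr, Pi.basisFun_apply]
      by_cases h : i = j
      · subst h; simp
      · rw [Pi.single_eq_of_ne (Ne.symm h), Pi.single_eq_of_ne (Ne.symm h)]; simp
    exact h2.trans (Submodule.span_le.2 hspan)
  have hbfin : Fintype b := Fintype.ofFinite b
  let bas : Basis b ℚ (ι → ℚ) := Basis.mk hlin hspan'
  have hcardb : Fintype.card b = Fintype.card ι := by
    have := Module.finrank_eq_card_basis bas
    rw [Module.finrank_fintype_fun_eq_card] at this
    exact this.symm
  let e : b ≃ ι := Fintype.equivOfCardEq hcardb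
  set M : Matrix ι ι ℤ := fun i => Uz (e.symm i) with hM
  have hdet : M.det ≠ 0 := by
    have hrow : LinearIndependent ℚ (fun i => (M.map (Int.cast : ℤ → ℚ)).row i) := by
      have h1 : LinearIndependent ℚ (fun x : b => U x) := hlin
      have h2 := (linearIndependent_equiv e.symm).2 h1
      exact h2
    have hunit := Matrix.linearIndependent_rows_iff_isUnit.1 hrow
    have hd := (Matrix.isUnit_iff_isUnit_det _).1 hunit
    intro h0
    apply hd.ne_zero
    have : (M.map (Int.cast : ℤ → ℚ)).det = ((M.det : ℤ) : ℚ) :=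
      (RingHom.map_det (Int.castRingHom ℚ) M).symm
    rw [this, h0, Int.cast_zero]
  let g : κ → ι := fun k => e ⟨Sum.inl k, hsub ⟨k, rfl⟩⟩
  have hg : Function.Injective g := by
    intro k k' h
    have := e.injective h
    have := congrArg Subtype.val this
    exact Sum.inl_injective this
  have hcard : Fintype.card κ ≤ Fintype.card ι := Fintype.card_le_of_injective g hg
  refine ⟨hcard, ?_⟩
  set I : Finset ι := Finset.univ.image g with hIdef
  have hIcard : I.card = Fintype.card κ := by
    rw [hIdef, Finset.card_image_of_injective _ hg, Finset.card_univ]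
  have hMg : ∀ k, M (g k) = v k := by
    intro k
    show Uz (e.symm (e ⟨Sum.inl k, _⟩)) = v k
    rw [Equiv.symm_apply_apply]
    rfl
  -- the bound of the determinant
  have hdetle : M.det.natAbs ≤ B ^ (Fintype.card κ) := by
    refine (natAbs_det_le M).trans ?_
    have h1 : ∀ i, ∑ j, (M i j).natAbs ≤ if i ∈ I then B else 1 := by
      intro i
      by_cases h : i ∈ I
      · rw [if_pos h]
        obtain ⟨k, -, rfl⟩ := Finset.mem_image.1 h
        rw [hMg k]
        exact hB k
      · rw [if_neg h]
        rcases hx : (e.symm i : κ ⊕ ι) with k | j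
        · exfalso
          apply h
          refine Finset.mem_image.2 ⟨k, Finset.mem_univ _, ?_⟩
          show e ⟨Sum.inl k, _⟩ = i
          rw [← Equiv.eq_symm_apply]
          exact Subtype.ext hx.symm
        · have : M i = Pi.single j 1 := by
            show Uz (e.symm i) = _
            rw [hx]
            rfl
          rw [this, Finset.sum_eq_single j]
          · simp
          · intro j' _ hj'
            rw [Pi.single_eq_of_ne hj']; rfl
          · intro h'; exact absurd (Finset.mem_univ _) h'
    calc ∏ i, ∑ j, (M i j).natAbs ≤ ∏ i, (if i ∈ I then B else 1) :=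
          Finset.prod_le_prod' (fun i _ => h1 i)
      _ = B ^ (Fintype.card κ) := by
          rw [Finset.prod_ite, Finset.prod_const_one, mul_one, Finset.prod_const, ← hIcard]
          congr 2
          ext i; simp
  -- the map
  set Φ : (ι → ZMod L) → (ι → ZMod L) := fun x i => ∑ j, (M i j : ZMod L) * x j with hΦ
  set T : Finset (ι → ZMod L) := Fintype.piFinset (fun i => if i ∈ I then {0} else Finset.univ)
    with hT
  have hTcard : T.card = L ^ (Fintype.card ι - Fintype.card κ) := by
    rw [hT, Fintype.card_piFinset]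
    have : ∀ i, (if i ∈ I then ({0} : Finset (ZMod L)) else Finset.univ).card =
        if i ∈ I then 1 else L := by
      intro i
      split_ifs
      · simp
      · rw [Finset.card_univ, ZMod.card]
    rw [Finset.prod_congr rfl (fun i _ => this i), Finset.prod_ite, Finset.prod_const_one, one_mul,
      Finset.prod_const, ← hIcard, ← Finset.card_compl]
    congr 2
    ext i; simp
  set Sol := Finset.univ.filter (fun x : ι → ZMod L => ∀ k, ∑ j, (v k j : ZMod L) * x j = 0)
    with hSol
  have himg : Sol.image Φ ⊆ T := by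
    intro y hy
    obtain ⟨x, hx, rfl⟩ := Finset.mem_image.1 hy
    have hx' := (Finset.mem_filter.1 hx).2
    rw [hT, Fintype.mem_piFinset]
    intro i
    split_ifs with h
    · obtain ⟨k, -, rfl⟩ := Finset.mem_image.1 h
      rw [Finset.mem_singleton]
      show ∑ j, (M (g k) j : ZMod L) * x j = 0
      rw [hMg k]
      exact hx' k
    · exact Finset.mem_univ _
  have hfib : ∀ y ∈ Sol.image Φ, (Sol.filter (fun x => Φ x = y)).card ≤ M.det.natAbs := by
    intro y hy
    obtain ⟨x0, hx0, rfl⟩ := Finset.mem_image.1 hy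
    refine le_trans ?_ (card_ker_le M hdet L)
    refine Finset.card_le_card_of_injOn (fun x => x - x0) ?_ ?_
    · intro x hx
      have hx' := (Finset.mem_filter.1 (Finset.mem_coe.1 hx)).2
      refine Finset.mem_coe.2 (Finset.mem_filter.2 ⟨Finset.mem_univ _, fun i => ?_⟩)
      have h1 := congrFun hx' i
      simp only [hΦ] at h1
      simp only [Pi.sub_apply, mul_sub, Finset.sum_sub_distrib]
      rw [h1, sub_self]
    · intro x _ x' _ h
      exact sub_left_injective h
  calc Sol.card ≤ M.det.natAbs * (Sol.image Φ).card :=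
        Finset.card_le_mul_card_image Sol _ hfib
    _ ≤ B ^ (Fintype.card κ) * T.card :=
        Nat.mul_le_mul hdetle (Finset.card_le_card himg)
    _ = L ^ (Fintype.card ι - Fintype.card κ) * B ^ (Fintype.card κ) := by
        rw [hTcard, mul_comm]

end solutions

end Pool.Agent.N428.Ram
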