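import Mathlib
import Pool.Agent.N428.Ram.Freiman
import Pool.Agent.N428.Ram.Sol

namespace Pool.Agent.N428.Ram

open Finset Module
open scoped Pointwise

section relations

variable {ι : Type*} [Fintype ι] [DecidableEq ι] {G : Type*} [AddCommGroup G] [DecidableEq G]

/-- the integral vectors as rational ones -/
def toQ (v : ι → ℤ) : ι → ℚ := fun j => (v j : ℚ)

/-- the relations in `𝒱` satisfied by the tuple `x` -/
def Rel (𝒱 : Finset (ι → ℤ)) (x : ι → G) : Finset (ι → ℤ) :=
  𝒱.filter (fun v => ∑ j, v j • x j = 0)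

/-- the span of the relations -/
def relSpan (𝒱 : Finset (ι → ℤ)) (x : ι → G) : Submodule ℚ (ι → ℚ) :=
  Submodule.span ℚ (toQ '' (Rel 𝒱 x : Set (ι → ℤ)))

omit [DecidableEq ι] in
lemma mem_relSpan {𝒱 : Finset (ι → ℤ)} {x : ι → G} {v : ι → ℤ} (h : v ∈ 𝒱)
    (h' : ∑ j, v j • x j = 0) : toQ v ∈ relSpan 𝒱 x :=
  Submodule.subset_span ⟨v, Finset.mem_coe.2 (Finset.mem_filter.2 ⟨h, h'⟩), rfl⟩

/-- The codimension of the space of the relations is at most `3 K + 1`. -/
lemma rank_bound (A : Finset G) (x : ι → G) (hx : ∀ i, x i ∈ A) (rep : G → ι → ℤ)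
    (hrep : ∀ a ∈ A, ∑ j, rep a j • x j = a) (𝒱 : Finset (ι → ℤ))
    (h1 : ∀ a ∈ A, ∀ b ∈ A, ∀ c ∈ A, ∀ d ∈ A, (rep a - rep b) - (rep c - rep d) ∈ 𝒱)
    (h2 : ∀ i, Pi.single i 1 - rep (x i) ∈ 𝒱) :
    Fintype.card ι * A.card ≤
      finrank ℚ (relSpan 𝒱 x) * A.card + (3 * (A - A).card + A.card) := by
  set S := relSpan 𝒱 x with hS
  have hlin : ∀ u w : ι → ℤ, ∑ j, (u - w) j • x j = ∑ j, u j • x j - ∑ j, w j • x j := by
    intro u w
    rw [← Finset.sum_sub_distrib]
    exact Finset.sum_congr rfl (fun j _ => by rw [Pi.sub_apply, sub_smul])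
  have htoQ : ∀ u w : ι → ℤ, toQ (u - w) = toQ u - toQ w := by
    intro u w
    funext j
    simp [toQ]
  have h := finrank_le_of_spanning A (E := (ι → ℚ) ⧸ S)
    (fun g => Submodule.Quotient.mk (toQ (rep g))) (by
      intro a ha b hb c hc d hd habcd
      rw [← Submodule.Quotient.mk_sub, ← Submodule.Quotient.mk_sub, ← htoQ, ← htoQ,
        Submodule.Quotient.eq, ← htoQ]
      apply mem_relSpan (h1 a ha b hb c hc d hd)
      rw [hlin, hlin, hlin, hrep a ha, hrep b hb, hrep c hc, hrep d hd, habcd, sub_self]) (by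
      rw [eq_top_iff]
      intro y _
      obtain ⟨y, rfl⟩ := Submodule.Quotient.mk_surjective S y
      have hy : y = ∑ i, y i • (toQ (Pi.single i 1) : ι → ℚ) := by
        funext j
        rw [Finset.sum_apply, Finset.sum_eq_single j]
        · simp [toQ]
        · intro i _ hij
          simp [toQ, Pi.single_eq_of_ne (Ne.symm hij)]
        · intro hj; exact absurd (Finset.mem_univ _) hj
      have hmk : (Submodule.Quotient.mk y : (ι → ℚ) ⧸ S) =
          ∑ i, y i • (Submodule.Quotient.mk (toQ (Pi.single i 1)) : (ι → ℚ) ⧸ S) := by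
        conv_lhs => rw [hy]
        rw [← Submodule.mkQ_apply, map_sum]
        refine Finset.sum_congr rfl (fun i _ => ?_)
        rw [map_smul]
        rfl
      rw [hmk]
      refine Submodule.sum_mem _ (fun i _ => Submodule.smul_mem _ _ ?_)
      apply Submodule.subset_span
      refine ⟨x i, Finset.mem_coe.2 (hx i), ?_⟩
      show (Submodule.Quotient.mk (toQ (rep (x i))) : (ι → ℚ) ⧸ S) = _
      symm
      rw [Submodule.Quotient.eq, ← htoQ]
      apply mem_relSpan (h2 i)
      rw [hlin, hrep (x i) (hx i), Finset.sum_eq_single i]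
      · simp
      · intro j _ hj
        simp [Pi.single_eq_of_ne hj]
      · intro hj; exact absurd (Finset.mem_univ _) hj)
  have hdim : finrank ℚ ((ι → ℚ) ⧸ S) + finrank ℚ S = Fintype.card ι := by
    rw [Submodule.finrank_quotient_add_finrank, Module.finrank_fintype_fun_eq_card]
  rw [← hdim]
  have : (finrank ℚ ((ι → ℚ) ⧸ S) + finrank ℚ S) * A.card =
      finrank ℚ ((ι → ℚ) ⧸ S) * A.card + finrank ℚ S * A.card := by ring
  rw [this]
  omega

end relations

section tuples

variable {ι : Type*} [Fintype ι] [DecidableEq ι]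

/-- The number of tuples in `(ZMod L)^n` with a large space of short relations. -/
lemma card_tuples_le (𝒱 : Finset (ι → ℤ)) (B : ℕ) (hB : ∀ v ∈ 𝒱, ∑ j, (v j).natAbs ≤ B)
    (n L : ℕ) [NeZero L] (r : ℕ) (hr : r ≤ Fintype.card ι) :
    (Finset.univ.filter (fun x : ι → (Fin n → ZMod L) =>
      Fintype.card ι ≤ r + finrank ℚ (relSpan 𝒱 x))).card ≤
      𝒱.card ^ (Fintype.card ι - r) * (L ^ r * B ^ (Fintype.card ι - r)) ^ n := by
  classical
  set ρ := Fintype.card ι - r with hρ
  set I : Finset (Fin ρ → 𝒱) := Finset.univ.filter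
    (fun w => LinearIndependent ℚ (fun k j => ((w k : ι → ℤ) j : ℚ))) with hI
  set SolG : (Fin ρ → 𝒱) → Finset (ι → (Fin n → ZMod L)) := fun w =>
    Finset.univ.filter (fun x => ∀ k, ∑ j, (w k : ι → ℤ) j • x j = 0) with hSolG
  have hcover : (Finset.univ.filter (fun x : ι → (Fin n → ZMod L) =>
      Fintype.card ι ≤ r + finrank ℚ (relSpan 𝒱 x))) ⊆ I.biUnion SolG := by
    intro x hx
    have hx' : ρ ≤ finrank ℚ (relSpan 𝒱 x) := by
      have := (Finset.mem_filter.1 hx).2
      omega
    obtain ⟨b, hb, hspan, hlin⟩ := exists_linearIndependent ℚ (toQ '' (Rel 𝒱 x : Set (ι → ℤ)))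
    have hbfin : Set.Finite b := (Set.Finite.image _ (Finset.finite_toSet _)).subset hb
    have hbF : Fintype b := hbfin.fintype
    have hcard : ρ ≤ Fintype.card b := by
      have h1 : finrank ℚ (Submodule.span ℚ b) = Fintype.card b := by
        have := finrank_span_eq_card hlin
        rwa [Subtype.range_coe] at this
      rw [← h1, hspan]
      exact hx'
    obtain ⟨f⟩ := Function.Embedding.nonempty_of_card_le
      (show Fintype.card (Fin ρ) ≤ Fintype.card b by rwa [Fintype.card_fin])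
    have hch : ∀ k : Fin ρ, ∃ v ∈ Rel 𝒱 x, toQ v = (f k : ι → ℚ) := by
      intro k
      obtain ⟨v, hv, hv'⟩ := hb (f k).2
      exact ⟨v, Finset.mem_coe.1 hv, hv'⟩
    choose v hv hv' using hch
    refine Finset.mem_biUnion.2 ⟨fun k => ⟨v k, (Finset.mem_filter.1 (hv k)).1⟩, ?_, ?_⟩
    · refine Finset.mem_filter.2 ⟨Finset.mem_univ _, ?_⟩
      have h1 : LinearIndependent ℚ (fun k : Fin ρ => ((f k : b) : ι → ℚ)) :=
        hlin.comp f f.injective
      have h2 : (fun (k : Fin ρ) (j : ι) => ((v k) j : ℚ)) = fun k => ((f k : b) : ι → ℚ) := by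
        funext k
        exact hv' k
      exact h2 ▸ h1
    · refine Finset.mem_filter.2 ⟨Finset.mem_univ _, fun k => ?_⟩
      exact (Finset.mem_filter.1 (hv k)).2
  have hsol : ∀ w ∈ I, (SolG w).card ≤ (L ^ r * B ^ ρ) ^ n := by
    intro w hw
    have hlin := (Finset.mem_filter.1 hw).2
    have h1 := (card_sol_le (fun k => (w k : ι → ℤ)) hlin B (fun k => hB _ (w k).2) L)
    have h3 : Fintype.card ι - Fintype.card (Fin ρ) = r := by
      rw [Fintype.card_fin]; omega
    rw [h3, Fintype.card_fin] at h1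
    set Sol := Finset.univ.filter (fun x : ι → ZMod L =>
      ∀ k, ∑ j, ((w k : ι → ℤ) j : ZMod L) * x j = 0) with hSol
    calc (SolG w).card ≤ (Fintype.piFinset (fun _ : Fin n => Sol)).card := by
          refine Finset.card_le_card_of_injOn (fun x c j => x j c) ?_ ?_
          · intro x hx
            have hx' := (Finset.mem_filter.1 (Finset.mem_coe.1 hx)).2
            refine Finset.mem_coe.2 (Fintype.mem_piFinset.2 (fun c => ?_))
            refine Finset.mem_filter.2 ⟨Finset.mem_univ _, fun k => ?_⟩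
            have := congrFun (hx' k) c
            rw [Finset.sum_apply] at this
            rw [← Pi.zero_apply c (M := fun _ : Fin n => ZMod L), ← this]
            refine Finset.sum_congr rfl (fun j _ => ?_)
            rw [Pi.smul_apply, zsmul_eq_mul]
          · intro x _ y _ h
            funext j c
            exact congrFun (congrFun h c) j
      _ = Sol.card ^ n := by rw [Fintype.card_piFinset_const]
      _ ≤ (L ^ r * B ^ ρ) ^ n := by
          convert Nat.pow_le_pow_left h1.2 n
  calc (Finset.univ.filter (fun x : ι → (Fin n → ZMod L) =>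
      Fintype.card ι ≤ r + finrank ℚ (relSpan 𝒱 x))).card
      ≤ (I.biUnion SolG).card := Finset.card_le_card hcover
    _ ≤ ∑ w ∈ I, (SolG w).card := Finset.card_biUnion_le
    _ ≤ ∑ w ∈ I, (L ^ r * B ^ ρ) ^ n := Finset.sum_le_sum hsol
    _ = I.card * (L ^ r * B ^ ρ) ^ n := by rw [Finset.sum_const, smul_eq_mul]
    _ ≤ 𝒱.card ^ ρ * (L ^ r * B ^ ρ) ^ n := by
        refine Nat.mul_le_mul_right _ ?_
        calc I.card ≤ Fintype.card (Fin ρ → 𝒱) := Finset.card_le_univ _
          _ = 𝒱.card ^ ρ := by rw [Fintype.card_fun, Fintype.card_fin, Fintype.card_coe]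

end tuples

end Pool.Agent.N428.Ram
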