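import Mathlib

namespace Pool.Agent.N428.Ram

open Finset
open scoped Pointwise

variable {G : Type*} [AddCommGroup G] [DecidableEq G]

/-- all the subset sums are distinct -/
def Diss (X : Finset G) : Prop :=
  ∀ S ⊆ X, ∀ T ⊆ X, ∑ x ∈ S, x = ∑ x ∈ T, x → S = T

omit [DecidableEq G] in
lemma diss_empty : Diss (∅ : Finset G) := by
  intro S hS T hT _
  rw [Finset.subset_empty.1 hS, Finset.subset_empty.1 hT]

/-- a maximal dissociated subset generates the set with coefficients `-1, 0, 1` -/
lemma exists_diss (A : Finset G) : ∃ X ⊆ A, Diss X ∧ ∀ a ∈ A, ∃ ε : G → ℤ,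
    (∀ x, -1 ≤ ε x ∧ ε x ≤ 1) ∧ ∑ x ∈ X, ε x • x = a := by
  classical
  obtain ⟨X, hX, hmax⟩ := Finset.exists_max_image (A.powerset.filter (fun X => Diss X))
    (fun X => X.card) ⟨∅, Finset.mem_filter.2 ⟨Finset.empty_mem_powerset _, diss_empty⟩⟩
  rw [Finset.mem_filter, Finset.mem_powerset] at hX
  refine ⟨X, hX.1, hX.2, fun a ha => ?_⟩
  by_cases haX : a ∈ X
  · refine ⟨fun x => if x = a then 1 else 0, fun x => ?_, ?_⟩
    · beta_reduce
      split_ifs <;> norm_num
    · rw [Finset.sum_eq_single a]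
      · simp
      · intro b _ hb; simp [hb]
      · intro h; exact absurd haX h
  · have hnd : ¬ Diss (insert a X) := by
      intro h
      have := hmax (insert a X) (Finset.mem_filter.2
        ⟨Finset.mem_powerset.2 (Finset.insert_subset ha hX.1), h⟩)
      rw [Finset.card_insert_of_notMem haX] at this
      omega
    unfold Diss at hnd
    push Not at hnd
    obtain ⟨S, hS, T, hT, hsum, hne⟩ := hnd
    -- an auxiliary statement for the case `a ∈ S`, `a ∉ T`
    have key : ∀ S T : Finset G, S ⊆ insert a X → T ⊆ insert a X → a ∈ S → a ∉ T →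
        ∑ x ∈ S, x = ∑ x ∈ T, x → ∃ ε : G → ℤ,
          (∀ x, -1 ≤ ε x ∧ ε x ≤ 1) ∧ ∑ x ∈ X, ε x • x = a := by
      intro S T hS hT haS haT hsum
      have hTX : T ⊆ X := fun x hx => (Finset.mem_insert.1 (hT hx)).resolve_left
        (fun h => haT (h ▸ hx))
      have hSX : S.erase a ⊆ X := fun x hx => by
        rw [Finset.mem_erase] at hx
        exact (Finset.mem_insert.1 (hS hx.2)).resolve_left hx.1
      refine ⟨fun x => (if x ∈ T then 1 else 0) - (if x ∈ S.erase a then 1 else 0), ?_, ?_⟩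
      · intro x
        beta_reduce
        split_ifs <;> norm_num
      · have h1 : ∑ x ∈ X, ((if x ∈ T then (1 : ℤ) else 0) - (if x ∈ S.erase a then 1 else 0)) • x =
            ∑ x ∈ T, x - ∑ x ∈ S.erase a, x := by
          simp only [sub_smul, Finset.sum_sub_distrib, ite_smul, one_smul, zero_smul]
          rw [← Finset.sum_filter, ← Finset.sum_filter]
          congr 2
          · ext x; simp only [Finset.mem_filter]; exact ⟨fun h => h.2, fun h => ⟨hTX h, h⟩⟩
          · ext x; simp only [Finset.mem_filter]; exact ⟨fun h => h.2, fun h => ⟨hSX h, h⟩⟩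
        rw [h1, ← hsum, ← Finset.add_sum_erase S _ haS]
        abel
    by_cases haS : a ∈ S
    · by_cases haT : a ∈ T
      · exfalso
        apply hne
        have h1 : S.erase a = T.erase a := by
          apply hX.2
          · intro x hx
            rw [Finset.mem_erase] at hx
            exact (Finset.mem_insert.1 (hS hx.2)).resolve_left hx.1
          · intro x hx
            rw [Finset.mem_erase] at hx
            exact (Finset.mem_insert.1 (hT hx.2)).resolve_left hx.1
          · rw [← Finset.add_sum_erase S _ haS, ← Finset.add_sum_erase T _ haT] at hsum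
            exact add_left_cancel hsum
        rw [← Finset.insert_erase haS, h1, Finset.insert_erase haT]
      · exact key S T hS hT haS haT hsum
    · by_cases haT : a ∈ T
      · exact key T S hT hS haT haS hsum.symm
      · exfalso
        apply hne
        apply hX.2 S _ T _ hsum
        · exact fun x hx => (Finset.mem_insert.1 (hS hx)).resolve_left (fun h => haS (h ▸ hx))
        · exact fun x hx => (Finset.mem_insert.1 (hT hx)).resolve_left (fun h => haT (h ▸ hx))

lemma sum_mem_nsmul (A : Finset G) : ∀ (l : ℕ) (S : Finset G), S ⊆ A → S.card = l →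
    ∑ x ∈ S, x ∈ l • A := by
  intro l
  induction l with
  | zero =>
    intro S _ hS
    rw [Finset.card_eq_zero.1 hS]
    simp
  | succ l ih =>
    intro S hSA hS
    obtain ⟨a, ha⟩ : S.Nonempty := by rw [← Finset.card_pos]; omega
    rw [← Finset.add_sum_erase S _ ha, succ_nsmul']
    exact Finset.add_mem_add (hSA ha) (ih _ ((Finset.erase_subset _ _).trans hSA)
      (by rw [Finset.card_erase_of_mem ha]; omega))

lemma choose_le {X A : Finset G} (hX : Diss X) (hXA : X ⊆ A) (l : ℕ) :
    X.card.choose l ≤ (l • A).card := by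
  rw [← Finset.card_powersetCard]
  refine Finset.card_le_card_of_injOn (fun S => ∑ x ∈ S, x) ?_ ?_
  · intro S hS
    rw [Finset.mem_coe, Finset.mem_powersetCard] at hS
    exact Finset.mem_coe.2 (sum_mem_nsmul A l S (hS.1.trans hXA) hS.2)
  · intro S hS T hT h
    rw [Finset.mem_coe, Finset.mem_powersetCard] at hS hT
    exact hX S hS.1 T hT.1 h

/-- The size of a dissociated subset of a set of small doubling. -/
lemma diss_card {X A : Finset G} (hX : Diss X) (hXA : X ⊆ A) (hA : A.Nonempty) {l : ℕ}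
    (hl : 1 ≤ l) (hlA : A.card ≤ 2 ^ l) :
    (X.card + 1 - l) * A.card ≤ 2 * l * (A - A).card := by
  have hApos : 0 < A.card := Finset.card_pos.2 hA
  have h1 := choose_le hX hXA l
  have h2 := Finset.pluennecke_ruzsa_inequality_nsmul_sub hA A l
  have h3 : (X.card + 1 - l) ^ l ≤ l ^ l * X.card.choose l := by
    calc (X.card + 1 - l) ^ l ≤ X.card.descFactorial l := Nat.pow_sub_le_descFactorial _ _
      _ = l.factorial * X.card.choose l := Nat.descFactorial_eq_factorial_mul_choose _ _
      _ ≤ l ^ l * X.card.choose l := Nat.mul_le_mul_right _ (Nat.factorial_le_pow l)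
  have h4 : (((X.card + 1 - l : ℕ) : ℝ)) ^ l ≤
      ((l : ℝ) * (((A - A).card : ℝ) / A.card) * 2) ^ l := by
    have h5 : ((l • A).card : ℝ) ≤ (((A - A).card : ℝ) / A.card) ^ l * A.card := by
      have := (NNRat.cast_le (K := ℝ)).2 h2
      push_cast at this
      exact this
    have h6 : (A.card : ℝ) ≤ 2 ^ l := by exact_mod_cast hlA
    have h7 : (X.card.choose l : ℝ) ≤ ((l • A).card : ℝ) := by exact_mod_cast h1
    have h8 : (((X.card + 1 - l : ℕ) : ℝ)) ^ l ≤ (l : ℝ) ^ l * X.card.choose l := by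
      exact_mod_cast h3
    rw [mul_pow, mul_pow]
    calc (((X.card + 1 - l : ℕ) : ℝ)) ^ l ≤ (l : ℝ) ^ l * X.card.choose l := h8
      _ ≤ (l : ℝ) ^ l * ((((A - A).card : ℝ) / A.card) ^ l * 2 ^ l) := by
          apply mul_le_mul_of_nonneg_left _ (by positivity)
          refine (h7.trans h5).trans ?_
          apply mul_le_mul_of_nonneg_left h6 (by positivity)
      _ = _ := by ring
  have h9 : ((X.card + 1 - l : ℕ) : ℝ) ≤ (l : ℝ) * (((A - A).card : ℝ) / A.card) * 2 :=
    le_of_pow_le_pow_left₀ (by omega) (by positivity) h4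
  have h10 : ((X.card + 1 - l : ℕ) : ℝ) * A.card ≤ 2 * l * (A - A).card := by
    have hA' : (0 : ℝ) < A.card := by exact_mod_cast hApos
    calc ((X.card + 1 - l : ℕ) : ℝ) * A.card ≤
        ((l : ℝ) * (((A - A).card : ℝ) / A.card) * 2) * A.card :=
          mul_le_mul_of_nonneg_right h9 hA'.le
      _ = 2 * l * (A - A).card := by field_simp
  exact_mod_cast h10

/-- a tuple generating `A` with coefficients `-1, 0, 1` -/
lemma exists_tuple (A : Finset G) (h0 : 0 ∈ A) {l s : ℕ} (hl : 1 ≤ l) (hlA : A.card ≤ 2 ^ l)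
    (hs : ∀ c : ℕ, (c + 1 - l) * A.card ≤ 2 * l * (A - A).card → c ≤ s) :
    ∃ x : Fin s → G, (∀ i, x i ∈ A) ∧ ∀ a ∈ A, ∃ ε : Fin s → ℤ, (∀ i, -1 ≤ ε i ∧ ε i ≤ 1) ∧
      ∑ i, ε i • x i = a := by
  classical
  obtain ⟨X, hXA, hX, hgen⟩ := exists_diss A
  have hcard : X.card ≤ s := hs _ (diss_card hX hXA ⟨0, h0⟩ hl hlA)
  obtain ⟨f⟩ := Function.Embedding.nonempty_of_card_le
    (show Fintype.card X ≤ Fintype.card (Fin s) by simpa using hcard)
  refine ⟨Function.extend f (fun y : X => (y : G)) 0, ?_, ?_⟩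
  · intro i
    by_cases h : ∃ y, f y = i
    · obtain ⟨y, rfl⟩ := h
      rw [f.injective.extend_apply]
      exact hXA y.2
    · rw [Function.extend_apply' _ _ _ h]
      exact h0
  · intro a ha
    obtain ⟨ε, hε, hsum⟩ := hgen a ha
    refine ⟨Function.extend f (fun y : X => ε y) 0, ?_, ?_⟩
    · intro i
      by_cases h : ∃ y, f y = i
      · obtain ⟨y, rfl⟩ := h
        rw [f.injective.extend_apply]
        exact hε y
      · rw [Function.extend_apply' _ _ _ h]
        simp
    · rw [← hsum, ← Finset.sum_coe_sort X]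
      symm
      apply Fintype.sum_of_injective f f.injective
      · intro i hi
        have h : ¬ ∃ y, f y = i := fun ⟨y, hy⟩ => hi ⟨y, hy⟩
        rw [Function.extend_apply' _ _ _ h]
        simp
      · intro y
        rw [f.injective.extend_apply, f.injective.extend_apply]

/-- Ruzsa's covering lemma in the form that we need. -/
lemma exists_cover (A : Finset G) (hA : A.Nonempty) {m : ℕ} (hm : 1 ≤ m) (hmA : m ≤ A.card) :
    ∃ Y ⊆ A, Y.card = m ∧ ∃ F ⊆ A, F.Nonempty ∧ F.card * m ≤ (A - A).card ∧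
      ∀ a ∈ A, ∃ f ∈ F, ∃ y ∈ Y, ∃ y' ∈ Y, a = f - y + y' := by
  obtain ⟨Y, hYA, hY⟩ := Finset.exists_subset_card_eq hmA
  have hYne : Y.Nonempty := by rw [← Finset.card_pos]; omega
  have hnegY : (-Y).Nonempty := hYne.neg
  have hYpos : (0 : ℝ) < (-Y).card := by exact_mod_cast Finset.card_pos.2 hnegY
  obtain ⟨F, hFA, hFcard, hcov⟩ := Finset.ruzsa_covering_add (A := A) (B := -Y)
    (K := ((A - A).card : ℝ) / (-Y).card) hnegY (by
      rw [div_mul_cancel₀ _ hYpos.ne']
      have : A + -Y ⊆ A - A := by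
        intro x hx
        obtain ⟨a, ha, y, hy, rfl⟩ := Finset.mem_add.1 hx
        have : a + y = a - (-y) := by abel
        rw [this]
        exact Finset.sub_mem_sub ha (hYA (Finset.mem_neg'.1 hy))
      exact_mod_cast Finset.card_le_card this)
  refine ⟨Y, hYA, hY, F, hFA, ?_, ?_, ?_⟩
  · obtain ⟨a, ha⟩ := hA
    obtain ⟨f, hf, _, _, _⟩ := Finset.mem_add.1 (hcov ha)
    exact ⟨f, hf⟩
  · rw [le_div_iff₀ hYpos, Finset.card_neg, hY] at hFcard
    exact_mod_cast hFcard
  · intro a ha
    obtain ⟨f, hf, u, hu, rfl⟩ := Finset.mem_add.1 (hcov ha)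
    obtain ⟨y, hy, y', hy', rfl⟩ := Finset.mem_sub.1 hu
    refine ⟨f, hf, -y, Finset.mem_neg'.1 hy, -y', Finset.mem_neg'.1 hy', ?_⟩
    abel

end Pool.Agent.N428.Ram
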