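import Mathlib
import Pool.Agent.N428.Ram.Count
import Pool.Agent.N428.Ram.Diss

namespace Pool.Agent.N428.Ram

open Finset Module
open scoped Pointwise

/-- the sets of size `t` that contain `0` and have at most `D` differences -/
def fam (n L t D : ℕ) [NeZero L] : Finset (Finset (Fin n → ZMod L)) :=
  Finset.univ.filter (fun A => 0 ∈ A ∧ A.card = t ∧ (A - A).card ≤ D)

lemma fam_card_trivial (n L t D : ℕ) [NeZero L] : (fam n L t D).card ≤ (L ^ n) ^ t := by
  have h1 : fam n L t D ⊆ Finset.powersetCard t (Finset.univ : Finset (Fin n → ZMod L)) := by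
    intro A hA
    rw [Finset.mem_powersetCard]
    exact ⟨Finset.subset_univ _, (Finset.mem_filter.1 hA).2.2.1⟩
  refine (Finset.card_le_card h1).trans ?_
  rw [Finset.card_powersetCard, Finset.card_univ, Fintype.card_fun, ZMod.card, Fintype.card_fin]
  exact Nat.choose_le_pow _ _

/-- the large doubling regime -/
lemma regime2 (n L t D r : ℕ) [NeZero L] (hr : 3 * D < r * t) (hrt : r ≤ t) :
    (fam n L t D).card ≤ (t ^ 4) ^ (t - r) * (L ^ r * 4 ^ (t - r)) ^ n := by
  classical
  set 𝒱 : Finset (Fin t → ℤ) := (Finset.univ : Finset ((Fin t × Fin t) × (Fin t × Fin t))).image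
    (fun q => (Pi.single q.1.1 1 - Pi.single q.1.2 1) - (Pi.single q.2.1 1 - Pi.single q.2.2 1))
    with h𝒱
  have h𝒱card : 𝒱.card ≤ t ^ 4 := by
    refine Finset.card_image_le.trans ?_
    rw [Finset.card_univ]
    simp only [Fintype.card_prod, Fintype.card_fin]
    exact le_of_eq (by ring)
  have hsingle : ∀ i : Fin t, ∑ j, (Pi.single (M := fun _ => ℤ) i 1 j).natAbs = 1 := by
    intro i
    rw [Finset.sum_eq_single i]
    · simp
    · intro j _ hj
      rw [Pi.single_eq_of_ne hj]; rfl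
    · intro h; exact absurd (Finset.mem_univ _) h
  have h𝒱B : ∀ v ∈ 𝒱, ∑ j, (v j).natAbs ≤ 4 := by
    intro v hv
    obtain ⟨q, -, rfl⟩ := Finset.mem_image.1 hv
    have h1 : ∀ j, (((Pi.single q.1.1 1 - Pi.single q.1.2 1) -
        (Pi.single q.2.1 1 - Pi.single q.2.2 1) : Fin t → ℤ) j).natAbs ≤
        (Pi.single (M := fun _ => ℤ) q.1.1 1 j).natAbs +
        (Pi.single (M := fun _ => ℤ) q.1.2 1 j).natAbs +
        ((Pi.single (M := fun _ => ℤ) q.2.1 1 j).natAbs +
        (Pi.single (M := fun _ => ℤ) q.2.2 1 j).natAbs) := by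
      intro j
      simp only [Pi.sub_apply]
      omega
    refine (Finset.sum_le_sum (fun j _ => h1 j)).trans ?_
    rw [Finset.sum_add_distrib, Finset.sum_add_distrib, Finset.sum_add_distrib, hsingle, hsingle,
      hsingle, hsingle]
    norm_num
  have hex : ∀ A ∈ fam n L t D, ∃ x : Fin t → (Fin n → ZMod L),
      A = Finset.univ.image x ∧ t ≤ r + finrank ℚ (relSpan 𝒱 x) := by
    intro A hA
    obtain ⟨h0, hcard, hD⟩ := (Finset.mem_filter.1 hA).2
    let e : A ≃ Fin t := Finset.equivFinOfCardEq hcard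
    refine ⟨fun i => (e.symm i : Fin n → ZMod L), ?_, ?_⟩
    · ext a
      simp only [Finset.mem_image, Finset.mem_univ, true_and]
      constructor
      · intro ha
        exact ⟨e ⟨a, ha⟩, by rw [Equiv.symm_apply_apply]⟩
      · rintro ⟨i, rfl⟩
        exact (e.symm i).2
    · set rep : (Fin n → ZMod L) → Fin t → ℤ := fun g =>
        if h : g ∈ A then Pi.single (e ⟨g, h⟩) 1 else 0 with hrep
      have hrepA : ∀ a (h : a ∈ A), rep a = Pi.single (e ⟨a, h⟩) 1 := by
        intro a h
        simp [hrep, h]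
      have h := rank_bound A (fun i => (e.symm i : Fin n → ZMod L)) (fun i => (e.symm i).2) rep
        (by
          intro a ha
          rw [hrepA a ha, Finset.sum_eq_single (e ⟨a, ha⟩)]
          · simp
          · intro j _ hj
            simp [Pi.single_eq_of_ne hj]
          · intro h; exact absurd (Finset.mem_univ _) h) 𝒱
        (by
          intro a ha b hb c hc d hd
          rw [hrepA a ha, hrepA b hb, hrepA c hc, hrepA d hd]
          exact Finset.mem_image.2 ⟨((e ⟨a, ha⟩, e ⟨b, hb⟩), (e ⟨c, hc⟩, e ⟨d, hd⟩)),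
            Finset.mem_univ _, rfl⟩)
        (by
          intro i
          rw [hrepA _ (e.symm i).2]
          refine Finset.mem_image.2 ⟨((i, i), (i, i)), Finset.mem_univ _, ?_⟩
          simp)
      rw [Fintype.card_fin, hcard] at h
      by_contra hcon
      push Not at hcon
      have h1 : (r + finrank ℚ (relSpan 𝒱 fun i => (e.symm i : Fin n → ZMod L)) + 1) * t ≤
          t * t := Nat.mul_le_mul_right _ hcon
      nlinarith
  choose! x hx1 hx2 using hex
  have hle := card_tuples_le 𝒱 4 h𝒱B n L r (by rwa [Fintype.card_fin])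
  rw [Fintype.card_fin] at hle
  refine le_trans ?_ (hle.trans (Nat.mul_le_mul_right _ (Nat.pow_le_pow_left h𝒱card _)))
  refine Finset.card_le_card_of_injOn x ?_ ?_
  · intro A hA
    exact Finset.mem_coe.2 (Finset.mem_filter.2 ⟨Finset.mem_univ _, hx2 A (Finset.mem_coe.1 hA)⟩)
  · intro A hA B hB h
    rw [hx1 A (Finset.mem_coe.1 hA), hx1 B (Finset.mem_coe.1 hB), h]

lemma exists_enum {α : Type*} [DecidableEq α] (F : Finset α) (hF : F.Nonempty) {m : ℕ}
    (h : F.card ≤ m) : ∃ g : Fin m → α, (∀ i, g i ∈ F) ∧ ∀ y ∈ F, ∃ i, g i = y := by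
  classical
  obtain ⟨f0, hf0⟩ := hF
  obtain ⟨f⟩ := Function.Embedding.nonempty_of_card_le
    (show Fintype.card F ≤ Fintype.card (Fin m) by simpa using h)
  refine ⟨Function.extend f (fun y : F => (y : α)) (fun _ => f0), ?_, ?_⟩
  · intro i
    by_cases hi : ∃ y, f y = i
    · obtain ⟨y, rfl⟩ := hi
      rw [f.injective.extend_apply]
      exact y.2
    · rw [Function.extend_apply' _ _ _ hi]
      exact hf0
  · intro y hy
    exact ⟨f ⟨y, hy⟩, by rw [f.injective.extend_apply]⟩

/-- the combination with the coefficients `u - 1` -/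
def lin {n L s : ℕ} (x : Fin s → (Fin n → ZMod L)) (u : Fin s → Fin 3) : Fin n → ZMod L :=
  ∑ i, (((u i : ℕ) : ℤ) - 1) • x i

/-- the small container -/
def cont {n L s m1 m : ℕ} [NeZero L] (x : Fin s → (Fin n → ZMod L)) (p : Fin m1 → Fin s → Fin 3)
    (q : Fin m → Fin s → Fin 3) : Finset (Fin n → ZMod L) :=
  (Finset.univ : Finset (Fin m1 × Fin m × Fin m)).image
    (fun z => lin x (p z.1) - lin x (q z.2.1) + lin x (q z.2.2))

/-- the small doubling regime -/
lemma regime1 (n L t D r l s m m1 M : ℕ) [NeZero L] (ht : 1 ≤ t) (hr : 3 * D < r * t)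
    (hrs : r ≤ s) (hl : 1 ≤ l) (htl : t ≤ 2 ^ l)
    (hs : ∀ c : ℕ, (c + 1 - l) * t ≤ 2 * l * D → c ≤ s)
    (hm : 1 ≤ m) (hmt : m ≤ t) (hm1 : D < (m1 + 1) * m) (hM : D ^ 3 ≤ M * t ^ 2) :
    (fam n L t D).card ≤ (9 ^ s) ^ (s - r) * (L ^ r * (4 * s) ^ (s - r)) ^ n *
      ((3 ^ s) ^ m1 * ((3 ^ s) ^ m * M.choose t)) := by
  classical
  set 𝒱 : Finset (Fin s → ℤ) := Fintype.piFinset (fun _ => Finset.Icc (-4 : ℤ) 4) with h𝒱
  have h𝒱card : 𝒱.card = 9 ^ s := by
    rw [h𝒱, Fintype.card_piFinset_const, Int.card_Icc]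
    rfl
  have h𝒱B : ∀ v ∈ 𝒱, ∑ j, (v j).natAbs ≤ 4 * s := by
    intro v hv
    have hv' := Fintype.mem_piFinset.1 hv
    have : ∀ j, (v j).natAbs ≤ 4 := by
      intro j
      have := Finset.mem_Icc.1 (hv' j)
      omega
    refine (Finset.sum_le_sum (fun j _ => this j)).trans ?_
    rw [Finset.sum_const, Finset.card_univ, Fintype.card_fin, smul_eq_mul, mul_comm]
  set 𝒳 := Finset.univ.filter (fun x : Fin s → (Fin n → ZMod L) =>
      s ≤ r + finrank ℚ (relSpan 𝒱 x)) with h𝒳
  have h𝒳card : 𝒳.card ≤ (9 ^ s) ^ (s - r) * (L ^ r * (4 * s) ^ (s - r)) ^ n := by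
    have := card_tuples_le 𝒱 (4 * s) h𝒱B n L r (by rwa [Fintype.card_fin])
    rw [Fintype.card_fin, h𝒱card] at this
    exact this
  have hex : ∀ A ∈ fam n L t D, ∃ x ∈ 𝒳, ∃ p : Fin m1 → Fin s → Fin 3,
      ∃ q : Fin m → Fin s → Fin 3, (cont x p q).card ≤ M ∧ A ∈ powersetCard t (cont x p q) := by
    intro A hA
    obtain ⟨h0, hcard, hD⟩ := (Finset.mem_filter.1 hA).2
    have hAne : A.Nonempty := ⟨0, h0⟩
    obtain ⟨x, hxA, hgen⟩ := exists_tuple A h0 (l := l) (s := s) hl (by rwa [hcard]) (by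
      intro c hc
      apply hs
      rw [hcard] at hc
      exact hc.trans (Nat.mul_le_mul_left _ hD))
    choose! rep hrep1 hrep2 using hgen
    have hrank := rank_bound A x hxA rep hrep2 𝒱
      (by
        intro a ha b hb c hc d hd
        refine Fintype.mem_piFinset.2 (fun j => Finset.mem_Icc.2 ?_)
        have h1 := hrep1 a ha j
        have h2 := hrep1 b hb j
        have h3 := hrep1 c hc j
        have h4 := hrep1 d hd j
        simp only [Pi.sub_apply]
        omega)
      (by
        intro i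
        refine Fintype.mem_piFinset.2 (fun j => Finset.mem_Icc.2 ?_)
        have h1 := hrep1 _ (hxA i) j
        have h2 : (0 : ℤ) ≤ (Pi.single i 1 : Fin s → ℤ) j ∧ (Pi.single i 1 : Fin s → ℤ) j ≤ 1 := by
          by_cases h : j = i
          · subst h; simp
          · rw [Pi.single_eq_of_ne h]; norm_num
        simp only [Pi.sub_apply]
        omega)
    rw [Fintype.card_fin, hcard] at hrank
    have hx𝒳 : x ∈ 𝒳 := by
      refine Finset.mem_filter.2 ⟨Finset.mem_univ _, ?_⟩
      by_contra hcon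
      push Not at hcon
      have h1 : (r + finrank ℚ (relSpan 𝒱 x) + 1) * t ≤ s * t := Nat.mul_le_mul_right _ hcon
      nlinarith
    -- the sign vectors
    have hlin : ∀ a ∈ A, ∃ u : Fin s → Fin 3, lin x u = a := by
      intro a ha
      refine ⟨fun i => ⟨(rep a i + 1).toNat, by have := hrep1 a ha i; omega⟩, ?_⟩
      unfold lin
      refine Eq.trans ?_ (hrep2 a ha)
      refine Finset.sum_congr rfl (fun i _ => ?_)
      have := hrep1 a ha i
      congr 1
      show (((rep a i + 1).toNat : ℕ) : ℤ) - 1 = rep a i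
      omega
    choose! sg hsg using hlin
    obtain ⟨Y, hYA, hY, F, hFA, hFne, hFcard, hcov⟩ := exists_cover A hAne hm (by rwa [hcard])
    have hFm1 : F.card ≤ m1 := by
      have h1 : F.card * m < (m1 + 1) * m := lt_of_le_of_lt (hFcard.trans hD) hm1
      have := Nat.lt_of_mul_lt_mul_right h1
      omega
    obtain ⟨g, hg1, hg2⟩ := exists_enum F hFne hFm1
    obtain ⟨k, hk1, hk2⟩ := exists_enum Y (by rw [← Finset.card_pos]; omega) hY.le
    have hcontA : cont x (fun i => sg (g i)) (fun i => sg (k i)) ⊆ 2 • A - 1 • A := by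
      intro a ha
      obtain ⟨z, -, rfl⟩ := Finset.mem_image.1 ha
      have e : lin x (sg (g z.1)) - lin x (sg (k z.2.1)) + lin x (sg (k z.2.2)) =
          (g z.1 + k z.2.2) - k z.2.1 := by
        rw [hsg _ (hFA (hg1 _)), hsg _ (hYA (hk1 _)), hsg _ (hYA (hk1 _))]
        abel
      simp only
      rw [e]
      refine Finset.sub_mem_sub ?_ ?_
      · rw [two_nsmul]
        exact Finset.add_mem_add (hFA (hg1 _)) (hYA (hk1 _))
      · rw [one_nsmul]
        exact hYA (hk1 _)
    refine ⟨x, hx𝒳, fun i => sg (g i), fun i => sg (k i), ?_, ?_⟩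
    · have h1 := Finset.pluennecke_ruzsa_inequality_nsmul_sub_nsmul_sub hAne A 2 1
      have h2 : ((cont x (fun i => sg (g i)) (fun i => sg (k i))).card : ℝ) ≤
          (((A - A).card : ℝ) / A.card) ^ 3 * A.card := by
        have h3 := (NNRat.cast_le (K := ℝ)).2 h1
        push_cast at h3
        refine le_trans ?_ h3
        exact_mod_cast Finset.card_le_card hcontA
      rw [hcard] at h2
      have htpos : (0 : ℝ) < t := by exact_mod_cast ht
      have h4 : ((cont x (fun i => sg (g i)) (fun i => sg (k i))).card : ℝ) * (t : ℝ) ^ 2 ≤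
          (D : ℝ) ^ 3 := by
        calc ((cont x (fun i => sg (g i)) (fun i => sg (k i))).card : ℝ) * (t : ℝ) ^ 2
            ≤ ((((A - A).card : ℝ) / t) ^ 3 * t) * (t : ℝ) ^ 2 :=
              mul_le_mul_of_nonneg_right h2 (by positivity)
          _ = ((A - A).card : ℝ) ^ 3 := by field_simp
          _ ≤ (D : ℝ) ^ 3 := by
              apply pow_le_pow_left₀ (by positivity)
              exact_mod_cast hD
      have h5 : (cont x (fun i => sg (g i)) (fun i => sg (k i))).card * t ^ 2 ≤ M * t ^ 2 := by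
        have : (cont x (fun i => sg (g i)) (fun i => sg (k i))).card * t ^ 2 ≤ D ^ 3 := by
          exact_mod_cast h4
        exact this.trans hM
      exact Nat.le_of_mul_le_mul_right h5 (by positivity)
    · rw [Finset.mem_powersetCard]
      refine ⟨?_, hcard⟩
      intro a ha
      obtain ⟨f, hf, y, hy, y', hy', rfl⟩ := hcov a ha
      obtain ⟨i, rfl⟩ := hg2 f hf
      obtain ⟨j, rfl⟩ := hk2 y hy
      obtain ⟨j', rfl⟩ := hk2 y' hy'
      refine Finset.mem_image.2 ⟨(i, j, j'), Finset.mem_univ _, ?_⟩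
      show lin x (sg (g i)) - lin x (sg (k j)) + lin x (sg (k j')) = _
      rw [hsg _ (hFA (hg1 _)), hsg _ (hYA (hk1 _)), hsg _ (hYA (hk1 _))]
  -- the counting
  set pc : (Fin s → (Fin n → ZMod L)) × ((Fin m1 → Fin s → Fin 3) × (Fin m → Fin s → Fin 3)) →
      Finset (Finset (Fin n → ZMod L)) := fun z =>
    if (cont z.1 z.2.1 z.2.2).card ≤ M then powersetCard t (cont z.1 z.2.1 z.2.2) else ∅ with hpc
  have hsub : fam n L t D ⊆ (𝒳 ×ˢ (Finset.univ ×ˢ Finset.univ)).biUnion pc := by
    intro A hA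
    obtain ⟨x, hx, p, q, hc, hmem⟩ := hex A hA
    refine Finset.mem_biUnion.2 ⟨(x, (p, q)), ?_, ?_⟩
    · simp [hx]
    · simp only [hpc]
      rw [if_pos hc]
      exact hmem
  have hpccard : ∀ z, (pc z).card ≤ M.choose t := by
    intro z
    simp only [hpc]
    split_ifs with h
    · rw [Finset.card_powersetCard]
      exact Nat.choose_le_choose _ h
    · simp
  calc (fam n L t D).card ≤ ((𝒳 ×ˢ (Finset.univ ×ˢ Finset.univ)).biUnion pc).card :=
        Finset.card_le_card hsub
    _ ≤ ∑ z ∈ (𝒳 ×ˢ (Finset.univ ×ˢ Finset.univ)), (pc z).card := Finset.card_biUnion_le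
    _ ≤ ∑ z ∈ (𝒳 ×ˢ ((Finset.univ : Finset (Fin m1 → Fin s → Fin 3)) ×ˢ
          (Finset.univ : Finset (Fin m → Fin s → Fin 3)))), M.choose t :=
        Finset.sum_le_sum (fun z _ => hpccard z)
    _ = 𝒳.card * ((3 ^ s) ^ m1 * (3 ^ s) ^ m) * M.choose t := by
        rw [Finset.sum_const, smul_eq_mul, Finset.card_product, Finset.card_product,
          Finset.card_univ, Finset.card_univ]
        simp only [Fintype.card_fun, Fintype.card_fin]
    _ ≤ (9 ^ s) ^ (s - r) * (L ^ r * (4 * s) ^ (s - r)) ^ n * ((3 ^ s) ^ m1 * (3 ^ s) ^ m) *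
          M.choose t :=
        Nat.mul_le_mul_right _ (Nat.mul_le_mul_right _ h𝒳card)
    _ = _ := by ring

end Pool.Agent.N428.Ram
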