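import Mathlib

namespace Pool.Agent.N428.Ram

open Finset
open scoped Pointwise

section half

variable {G : Type*} [AddCommGroup G]

/-- a representative of `{x, -x}` -/
def half (h : G → ℕ) (x : G) : G := if h x ≤ h (-x) then x else -x

lemma half_eq (h : G → ℕ) (x : G) : half h x = x ∨ half h x = -x := by
  unfold half
  split_ifs
  · exact Or.inl rfl
  · exact Or.inr rfl

lemma half_neg {h : G → ℕ} (hh : Function.Injective h) (x : G) : half h (-x) = half h x := by
  unfold half
  rw [neg_neg]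
  by_cases h1 : h (-x) ≤ h x
  · by_cases h2 : h x ≤ h (-x)
    · rw [if_pos h1, if_pos h2]
      exact hh (le_antisymm h1 h2)
    · rw [if_pos h1, if_neg h2]
  · rw [if_neg h1, if_pos (by omega)]

variable [DecidableEq G]

/-- the representatives of the nonzero differences -/
def reps (h : G → ℕ) (A : Finset G) : Finset G := ((A - A).erase 0).image (half h)

lemma card_le_reps (h : G → ℕ) (A : Finset G) : (A - A).card ≤ 2 * (reps h A).card + 1 := by
  have h1 : ((A - A).erase 0).card ≤ 2 * (reps h A).card := by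
    apply Finset.card_le_mul_card_image
    intro y _
    have : ((A - A).erase 0).filter (fun x => half h x = y) ⊆ {y, -y} := by
      intro x hx
      have := (Finset.mem_filter.1 hx).2
      rw [Finset.mem_insert, Finset.mem_singleton]
      rcases half_eq h x with h2 | h2
      · left; rw [← this, h2]
      · right; rw [← this, h2, neg_neg]
    exact (Finset.card_le_card this).trans Finset.card_le_two
  have h2 : (A - A).card - 1 ≤ ((A - A).erase 0).card := Finset.pred_card_le_card_erase
  omega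

/-- Greedy choice of a subset with many differences. -/
lemma exists_sub (X : Finset G) (K t : ℕ) (hK : 1 ≤ K) (ht : 4 * K ≤ t)
    (hX : 2 * K ^ 2 * t < X.card) : ∃ A ⊆ X, A.card = t ∧ K * t ≤ (A - A).card := by
  have hKt : t ≤ 2 * K ^ 2 * t := by
    have : 1 ≤ 2 * K ^ 2 := by nlinarith
    nlinarith
  obtain ⟨Y, hYX, hY⟩ := Finset.exists_subset_card_eq (s := X) (n := 2 * K) (by omega)
  have hYne : Y.Nonempty := by rw [← Finset.card_pos]; omega
  obtain ⟨y0, hy0⟩ := hYne
  have key : ∀ j, j ≤ t - 2 * K → ∃ A ⊆ X, Y ⊆ A ∧ A.card = 2 * K + j ∧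
      (2 * K * j ≤ (A - A).card ∨ K * t ≤ (A - A).card) := by
    intro j
    induction j with
    | zero => intro _; exact ⟨Y, hYX, subset_rfl, by omega, Or.inl (by omega)⟩
    | succ j ih =>
      intro hj
      obtain ⟨A, hAX, hYA, hA, hD⟩ := ih (by omega)
      by_cases hbig : K * t ≤ (A - A).card
      · -- any new element
        obtain ⟨z, hzX, hzA⟩ : ∃ z ∈ X, z ∉ A := by
          by_contra hcon
          push Not at hcon
          have := Finset.card_le_card (show X ⊆ A from hcon)
          omega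
        refine ⟨insert z A, Finset.insert_subset hzX hAX, hYA.trans (Finset.subset_insert _ _), ?_,
          Or.inr ?_⟩
        · rw [Finset.card_insert_of_notMem hzA]; omega
        · exact hbig.trans (Finset.card_le_card
            (Finset.sub_subset_sub (Finset.subset_insert _ _) (Finset.subset_insert _ _)))
      · have hD' : 2 * K * j ≤ (A - A).card := hD.resolve_right hbig
        push Not at hbig
        obtain ⟨z, hzX, hz⟩ : ∃ z ∈ X, z ∉ Y + (A - A) := by
          by_contra hcon
          push Not at hcon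
          have h1 := Finset.card_le_card (show X ⊆ Y + (A - A) from hcon)
          have h2 : (Y + (A - A)).card ≤ Y.card * (A - A).card := Finset.card_add_le
          rw [hY] at h2
          have h3 : 2 * K * (A - A).card ≤ 2 * K * (K * t) := Nat.mul_le_mul_left _ hbig.le
          have h4 : 2 * K * (K * t) = 2 * K ^ 2 * t := by ring
          omega
        have hzA : z ∉ A := by
          intro h
          apply hz
          have : z = y0 + (z - y0) := by abel
          rw [this]
          exact Finset.add_mem_add hy0 (Finset.sub_mem_sub h (hYA hy0))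
        refine ⟨insert z A, Finset.insert_subset hzX hAX, hYA.trans (Finset.subset_insert _ _), ?_,
          Or.inl ?_⟩
        · rw [Finset.card_insert_of_notMem hzA]; omega
        · have hdisj : Disjoint (A - A) (Y.image (fun y => z - y)) := by
            rw [Finset.disjoint_left]
            intro x hx hx'
            obtain ⟨y, hy, rfl⟩ := Finset.mem_image.1 hx'
            apply hz
            have : z = y + (z - y) := by abel
            rw [this]
            exact Finset.add_mem_add hy hx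
          have hsub : (A - A) ∪ (Y.image (fun y => z - y)) ⊆ insert z A - insert z A := by
            apply Finset.union_subset
            · exact Finset.sub_subset_sub (Finset.subset_insert _ _) (Finset.subset_insert _ _)
            · intro x hx
              obtain ⟨y, hy, rfl⟩ := Finset.mem_image.1 hx
              exact Finset.sub_mem_sub (Finset.mem_insert_self _ _)
                (Finset.mem_insert_of_mem (hYA hy))
          have h1 := Finset.card_le_card hsub
          rw [Finset.card_union_of_disjoint hdisj,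
            Finset.card_image_of_injective _ sub_right_injective, hY] at h1
          have h2 : 2 * K * (j + 1) = 2 * K * j + 2 * K := by ring
          omega
  obtain ⟨A, hAX, -, hA, hD⟩ := key (t - 2 * K) le_rfl
  refine ⟨A, hAX, by omega, ?_⟩
  rcases hD with h | h
  · refine le_trans ?_ h
    have h1 : 2 * K * (t - 2 * K) + 2 * K * (2 * K) = 2 * K * t := by
      rw [← Nat.mul_add]
      congr 1
      omega
    have h2 : 2 * K * (2 * K) ≤ K * t := by
      have : K * (4 * K) ≤ K * t := Nat.mul_le_mul_left _ ht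
      nlinarith
    nlinarith
  · exact h

end half

section union

variable {G : Type*} [AddCommGroup G] [DecidableEq G] [Fintype G]

omit [AddCommGroup G] in
lemma card_superset (R : Finset G) :
    ((Finset.univ.filter (fun B : Finset G => R ⊆ B)).card : ℝ) =
      2 ^ (Fintype.card G) / 2 ^ R.card := by
  have h1 : (Finset.univ.filter (fun B : Finset G => R ⊆ B)) = Finset.Icc R Finset.univ := by
    ext B; simp
  rw [h1, Finset.card_Icc_finset (Finset.subset_univ _), Finset.card_univ]
  push_cast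
  rw [pow_sub₀ _ (by norm_num) (Finset.card_le_univ R)]
  rfl

omit [AddCommGroup G] in
lemma card_disjoint (R : Finset G) :
    ((Finset.univ.filter (fun B : Finset G => Disjoint R B)).card : ℝ) =
      2 ^ (Fintype.card G) / 2 ^ R.card := by
  have h1 : (Finset.univ.filter (fun B : Finset G => Disjoint R B)) = (Rᶜ).powerset := by
    ext B
    simp only [Finset.mem_filter, Finset.mem_univ, true_and, Finset.mem_powerset]
    rw [disjoint_comm, ← Finset.subset_compl_iff_disjoint_right]
  rw [h1, Finset.card_powerset, Finset.card_compl]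
  push_cast
  rw [pow_sub₀ _ (by norm_num) (Finset.card_le_univ R)]
  rfl

/-- the union bound -/
lemma exists_good (h : G → ℕ) (t D0 : ℕ)
    (H : ∀ D, D0 ≤ D → D ≤ t ^ 2 → (Finset.univ.filter (fun A : Finset G =>
      0 ∈ A ∧ A.card = t ∧ (A - A).card = D)).card ≤ 2 ^ (D / 4))
    (hnum : 2 * (t ^ 2 + 1) < 2 ^ (D0 / 4)) :
    ∃ B : Finset G, ∀ A : Finset G, 0 ∈ A → A.card = t → D0 ≤ (A - A).card →
      ¬ (reps h A ⊆ B) ∧ ¬ Disjoint (reps h A) B := by
  classical
  by_contra hcon
  push Not at hcon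
  set 𝒜 : ℕ → Finset (Finset G) := fun D => Finset.univ.filter (fun A : Finset G =>
      0 ∈ A ∧ A.card = t ∧ (A - A).card = D) with h𝒜
  set bad : Finset G → Finset (Finset G) := fun A =>
    Finset.univ.filter (fun B : Finset G => reps h A ⊆ B) ∪
      Finset.univ.filter (fun B : Finset G => Disjoint (reps h A) B) with hbad
  have hcover : (Finset.univ : Finset (Finset G)) ⊆
      (Finset.Icc D0 (t ^ 2)).biUnion (fun D => (𝒜 D).biUnion bad) := by
    intro B _
    obtain ⟨A, h0, hA, hD, hB⟩ := hcon B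
    refine Finset.mem_biUnion.2 ⟨(A - A).card, Finset.mem_Icc.2 ⟨hD, ?_⟩, ?_⟩
    · have := Finset.card_sub_le (s := A) (t := A)
      rw [hA] at this
      rwa [sq]
    · refine Finset.mem_biUnion.2 ⟨A, Finset.mem_filter.2 ⟨Finset.mem_univ _, h0, hA, rfl⟩, ?_⟩
      by_cases h1 : reps h A ⊆ B
      · exact Finset.mem_union_left _ (Finset.mem_filter.2 ⟨Finset.mem_univ _, h1⟩)
      · exact Finset.mem_union_right _ (Finset.mem_filter.2 ⟨Finset.mem_univ _, hB h1⟩)
  have hbadcard : ∀ D, D0 ≤ D → ∀ A ∈ 𝒜 D, ((bad A).card : ℝ) ≤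
      2 * 2 ^ (Fintype.card G) / 2 ^ (D / 2) := by
    intro D hD A hA
    have hAD := (Finset.mem_filter.1 hA).2.2.2
    have h1 : D / 2 ≤ (reps h A).card := by
      have := card_le_reps h A
      omega
    have h2 : ((bad A).card : ℝ) ≤ 2 ^ (Fintype.card G) / 2 ^ (reps h A).card +
        2 ^ (Fintype.card G) / 2 ^ (reps h A).card := by
      rw [← card_superset, ]
      nth_rewrite 2 [card_superset]
      rw [← card_disjoint]
      exact_mod_cast Finset.card_union_le _ _
    have h3 : (2 : ℝ) ^ (Fintype.card G) / 2 ^ (reps h A).card ≤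
        2 ^ (Fintype.card G) / 2 ^ (D / 2) := by
      apply div_le_div_of_nonneg_left (by positivity) (by positivity)
      exact pow_le_pow_right₀ (by norm_num) h1
    calc ((bad A).card : ℝ) ≤ _ := h2
      _ ≤ 2 ^ (Fintype.card G) / 2 ^ (D / 2) + 2 ^ (Fintype.card G) / 2 ^ (D / 2) :=
          add_le_add h3 h3
      _ = _ := by ring
  have hlevel : ∀ D ∈ Finset.Icc D0 (t ^ 2), ((((𝒜 D).biUnion bad).card : ℕ) : ℝ) ≤
      2 * 2 ^ (Fintype.card G) / 2 ^ (D0 / 4) := by
    intro D hD
    rw [Finset.mem_Icc] at hD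
    have h1 : ((((𝒜 D).biUnion bad).card : ℕ) : ℝ) ≤ ∑ A ∈ 𝒜 D, ((bad A).card : ℝ) := by
      exact_mod_cast Finset.card_biUnion_le
    have h2 : ∑ A ∈ 𝒜 D, ((bad A).card : ℝ) ≤
        (𝒜 D).card * (2 * 2 ^ (Fintype.card G) / 2 ^ (D / 2)) := by
      refine (Finset.sum_le_sum (hbadcard D hD.1)).trans ?_
      rw [Finset.sum_const, nsmul_eq_mul]
    have h3 : ((𝒜 D).card : ℝ) ≤ 2 ^ (D / 4) := by exact_mod_cast H D hD.1 hD.2
    have h4 : (2 : ℝ) ^ (D / 4) * 2 ^ (D0 / 4) ≤ 2 ^ (D / 2) := by
      rw [← pow_add]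
      apply pow_le_pow_right₀ (by norm_num)
      omega
    refine h1.trans (h2.trans ?_)
    calc (𝒜 D).card * (2 * 2 ^ (Fintype.card G) / 2 ^ (D / 2) : ℝ)
        ≤ 2 ^ (D / 4) * (2 * 2 ^ (Fintype.card G) / 2 ^ (D / 2) : ℝ) :=
          mul_le_mul_of_nonneg_right h3 (by positivity)
      _ = (2 * 2 ^ (Fintype.card G)) * (2 ^ (D / 4) / 2 ^ (D / 2)) := by ring
      _ ≤ (2 * 2 ^ (Fintype.card G)) * (1 / 2 ^ (D0 / 4)) := by
          apply mul_le_mul_of_nonneg_left _ (by positivity)
          rw [div_le_div_iff₀ (by positivity) (by positivity), one_mul]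
          exact h4
      _ = _ := by ring
  have htotal : (2 : ℝ) ^ (Fintype.card G) ≤
      ((t ^ 2 + 1 : ℕ) : ℝ) * (2 * 2 ^ (Fintype.card G) / 2 ^ (D0 / 4)) := by
    calc (2 : ℝ) ^ (Fintype.card G) = ((Finset.univ : Finset (Finset G)).card : ℝ) := by
          rw [Finset.card_univ, Fintype.card_finset]; push_cast; rfl
      _ ≤ (((Finset.Icc D0 (t ^ 2)).biUnion (fun D => (𝒜 D).biUnion bad)).card : ℝ) := by
          exact_mod_cast Finset.card_le_card hcover
      _ ≤ ∑ D ∈ Finset.Icc D0 (t ^ 2), ((((𝒜 D).biUnion bad).card : ℕ) : ℝ) := by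
          exact_mod_cast Finset.card_biUnion_le
      _ ≤ ∑ _D ∈ Finset.Icc D0 (t ^ 2), (2 * 2 ^ (Fintype.card G) / 2 ^ (D0 / 4) : ℝ) :=
          Finset.sum_le_sum hlevel
      _ = ((t ^ 2 + 1 - D0 : ℕ) : ℝ) * (2 * 2 ^ (Fintype.card G) / 2 ^ (D0 / 4)) := by
          rw [Finset.sum_const, Nat.card_Icc, nsmul_eq_mul]
      _ ≤ ((t ^ 2 + 1 : ℕ) : ℝ) * (2 * 2 ^ (Fintype.card G) / 2 ^ (D0 / 4)) := by
          apply mul_le_mul_of_nonneg_right _ (by positivity)
          exact_mod_cast Nat.sub_le _ _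
  have hnum' : (2 : ℝ) * ((t ^ 2 + 1 : ℕ) : ℝ) < 2 ^ (D0 / 4) := by exact_mod_cast hnum
  have hP : (0 : ℝ) < 2 ^ (Fintype.card G) := by positivity
  have hQ : (0 : ℝ) < 2 ^ (D0 / 4) := by positivity
  have h6 : ((t ^ 2 + 1 : ℕ) : ℝ) * (2 * 2 ^ (Fintype.card G) / 2 ^ (D0 / 4)) =
      (2 * ((t ^ 2 + 1 : ℕ) : ℝ) / 2 ^ (D0 / 4)) * 2 ^ (Fintype.card G) := by ring
  rw [h6] at htotal
  have h7 : 2 * ((t ^ 2 + 1 : ℕ) : ℝ) / 2 ^ (D0 / 4) < 1 := (div_lt_one hQ).2 hnum'
  nlinarith

/-- From the counting to the Cayley graph. -/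
lemma exists_cayley (t K : ℕ) (hK : 1 ≤ K) (ht : 4 * K ≤ t)
    (H : ∀ D, K * t ≤ D → D ≤ t ^ 2 → (Finset.univ.filter (fun A : Finset G =>
      0 ∈ A ∧ A.card = t ∧ (A - A).card = D)).card ≤ 2 ^ (D / 4))
    (hnum : 2 * (t ^ 2 + 1) < 2 ^ (K * t / 4)) :
    ∃ S : Set G, 0 ∉ S ∧ (∀ x ∈ S, -x ∈ S) ∧ ∀ X : Finset G,
      ((∀ x ∈ X, ∀ y ∈ X, x ≠ y → y - x ∈ S) ∨ (∀ x ∈ X, ∀ y ∈ X, x ≠ y → y - x ∉ S)) →
        X.card ≤ 2 * K ^ 2 * t := by
  classical
  obtain ⟨h, hh⟩ : ∃ h : G → ℕ, Function.Injective h :=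
    ⟨fun x => (Fintype.equivFin G x : ℕ), fun x y hxy =>
      (Fintype.equivFin G).injective (Fin.ext hxy)⟩
  obtain ⟨B, hB⟩ := exists_good h t (K * t) H hnum
  refine ⟨{x | x ≠ 0 ∧ half h x ∈ B}, ?_, ?_, ?_⟩
  · intro hx; exact hx.1 rfl
  · intro x hx
    exact ⟨neg_ne_zero.2 hx.1, by rw [half_neg hh]; exact hx.2⟩
  · intro X hX
    by_contra hcon
    push Not at hcon
    obtain ⟨A, hAX, hA, hD⟩ := exists_sub X K t hK ht hcon
    obtain ⟨a0, ha0⟩ : A.Nonempty := by rw [← Finset.card_pos]; omega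
    set A' := A.image (fun a => a - a0) with hA'
    have hsub : A' - A' = A - A := by
      ext x
      simp only [Finset.mem_sub, hA', Finset.mem_image]
      constructor
      · rintro ⟨_, ⟨a, ha, rfl⟩, _, ⟨b, hb, rfl⟩, rfl⟩
        exact ⟨a, ha, b, hb, by abel⟩
      · rintro ⟨a, ha, b, hb, rfl⟩
        exact ⟨_, ⟨a, ha, rfl⟩, _, ⟨b, hb, rfl⟩, by abel⟩
    have h0 : (0 : G) ∈ A' := Finset.mem_image.2 ⟨a0, ha0, sub_self _⟩
    have hcard : A'.card = t := by
      rw [hA', Finset.card_image_of_injective _ sub_left_injective, hA]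
    obtain ⟨h1, h2⟩ := hB A' h0 hcard (by rw [hsub]; exact hD)
    rcases hX with hX | hX
    · apply h1
      intro y hy
      obtain ⟨d, hd, rfl⟩ := Finset.mem_image.1 hy
      rw [Finset.mem_erase, hsub] at hd
      obtain ⟨a, ha, b, hb, rfl⟩ := Finset.mem_sub.1 hd.2
      exact (hX b (hAX hb) a (hAX ha) (fun e => hd.1 (by rw [e, sub_self]))).2
    · apply h2
      rw [Finset.disjoint_left]
      intro y hy hyB
      obtain ⟨d, hd, rfl⟩ := Finset.mem_image.1 hy
      rw [Finset.mem_erase, hsub] at hd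
      obtain ⟨a, ha, b, hb, rfl⟩ := Finset.mem_sub.1 hd.2
      exact hX b (hAX hb) a (hAX ha) (fun e => hd.1 (by rw [e, sub_self])) ⟨hd.1, hyB⟩

end union

end Pool.Agent.N428.Ram
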