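import Mathlib
import Pool.Agent.N428.Ram.Reg
import Pool.Agent.N428.Ram.Union

namespace Pool.Agent.N428.Ram

open Finset
open scoped Pointwise

lemma pow_self_le (t : ℕ) : t ^ t ≤ 3 ^ t * t.factorial := by
  have h1 : (t : ℝ) ^ t / t.factorial ≤ Real.exp t :=
    Real.pow_div_factorial_le_exp _ (Nat.cast_nonneg t) t
  have h2 : Real.exp t ≤ 3 ^ t := by
    have : Real.exp t = Real.exp 1 ^ t := by rw [← Real.exp_nat_mul, mul_one]
    rw [this]
    apply pow_le_pow_left₀ (Real.exp_pos 1).le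
    exact Real.exp_one_lt_three.le
  have h3 : (0 : ℝ) < t.factorial := by exact_mod_cast Nat.factorial_pos t
  have h4 : (t : ℝ) ^ t ≤ 3 ^ t * t.factorial := by
    rw [div_le_iff₀ h3] at h1
    exact h1.trans (mul_le_mul_of_nonneg_right h2 h3.le)
  exact_mod_cast h4

lemma choose_bound (k t : ℕ) : (k ^ 3 * t).choose t ≤ (3 * k ^ 3) ^ t := by
  have h1 : t.factorial * (k ^ 3 * t).choose t ≤ (k ^ 3 * t) ^ t := by
    rw [← Nat.descFactorial_eq_factorial_mul_choose]
    exact Nat.descFactorial_le_pow _ _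
  have h2 : (k ^ 3 * t) ^ t ≤ t.factorial * (3 * k ^ 3) ^ t := by
    calc (k ^ 3 * t) ^ t = (k ^ 3) ^ t * t ^ t := by rw [mul_pow]
      _ ≤ (k ^ 3) ^ t * (3 ^ t * t.factorial) := Nat.mul_le_mul_left _ (pow_self_le t)
      _ = t.factorial * (3 * k ^ 3) ^ t := by rw [mul_pow]; ring
  exact Nat.le_of_mul_le_mul_left (h1.trans h2) (Nat.factorial_pos t)

lemma cube_bound (u : ℕ) (hu : 100 ≤ u) : 3 * (20 * u + 20) ^ 3 ≤ 2 ^ u := by
  induction u, hu using Nat.le_induction with
  | base => norm_num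
  | succ u hu ih =>
    have h1 : (20 * (u + 1) + 20) ^ 3 ≤ 2 * (20 * u + 20) ^ 3 := by
      obtain ⟨w, rfl⟩ : ∃ w, u = 100 + w := ⟨u - 100, by omega⟩
      ring_nf
      nlinarith [sq_nonneg w]
    calc 3 * (20 * (u + 1) + 20) ^ 3 ≤ 3 * (2 * (20 * u + 20) ^ 3) := Nat.mul_le_mul_left _ h1
      _ = 2 * (3 * (20 * u + 20) ^ 3) := by ring
      _ ≤ 2 * 2 ^ u := Nat.mul_le_mul_left _ ih
      _ = 2 ^ (u + 1) := by ring

lemma k_bound (k : ℕ) (hk : 2001 ≤ k) : 3 * k ^ 3 ≤ 2 ^ ((k - 1) / 20) := by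
  have h1 : 100 ≤ (k - 1) / 20 := by omega
  have h2 : k ≤ 20 * ((k - 1) / 20) + 20 := by omega
  calc 3 * k ^ 3 ≤ 3 * (20 * ((k - 1) / 20) + 20) ^ 3 :=
        Nat.mul_le_mul_left _ (Nat.pow_le_pow_left h2 3)
    _ ≤ _ := cube_bound _ h1

lemma l_bound (l : ℕ) (hl : 60 ≤ l) : 10 ^ 6 * l ^ 5 ≤ 2 ^ (l - 1) := by
  induction l, hl using Nat.le_induction with
  | base => norm_num
  | succ l hl ih =>
    have h1 : (l + 1) ^ 5 ≤ 2 * l ^ 5 := by
      obtain ⟨w, rfl⟩ : ∃ w, l = 60 + w := ⟨l - 60, by omega⟩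
      ring_nf
      nlinarith [sq_nonneg w, pow_nonneg (Nat.zero_le w) 3, pow_nonneg (Nat.zero_le w) 4,
        pow_nonneg (Nat.zero_le w) 5]
    have h2 : 2 ^ (l + 1 - 1) = 2 * 2 ^ (l - 1) := by
      rw [← pow_succ']
      congr 1
      omega
    rw [h2]
    calc 10 ^ 6 * (l + 1) ^ 5 ≤ 10 ^ 6 * (2 * l ^ 5) := Nat.mul_le_mul_left _ h1
      _ = 2 * (10 ^ 6 * l ^ 5) := by ring
      _ ≤ 2 * 2 ^ (l - 1) := Nat.mul_le_mul_left _ ih

lemma four_mul_le (s : ℕ) : 4 * s ≤ 2 ^ (2 * s) := by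
  rw [pow_mul]
  norm_num
  induction s with
  | zero => simp
  | succ s ih =>
    rcases Nat.eq_zero_or_pos s with h | h
    · subst h; norm_num
    · rw [pow_succ]; nlinarith

/-- The counting of the sets with few differences. -/
lemma fam_bound (n L ℓ l : ℕ) [NeZero L] (hN : L ^ n ≤ 2 ^ ℓ) (hl : 60 ≤ l) (hnl : n ≤ l)
    (htl : 100 * ℓ ≤ 2 ^ l) (hlt : 10 ^ 6 * l ^ 5 ≤ 100 * ℓ) (D : ℕ)
    (hD : 2000 * (100 * ℓ) ≤ D) : (fam n L (100 * ℓ) D).card ≤ 2 ^ (D / 4) := by
  set t := 100 * ℓ with ht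
  have hl5 : 1 ≤ l ^ 5 := Nat.one_le_pow _ _ (by omega)
  have htpos : 10 ^ 6 ≤ t := by nlinarith
  set r := 3 * D / t + 1 with hr
  have hr1 : 3 * D < r * t := by
    rw [hr, add_mul, one_mul]
    exact Nat.lt_div_mul_add (a := 3 * D) (b := t) (by omega)
  have hr2 : r * t ≤ 3 * D + t := by
    rw [hr, add_mul, one_mul]
    have := Nat.div_mul_le_self (3 * D) t
    omega
  have hℓr : 25 * (ℓ * r) ≤ D := by
    have : 100 * (ℓ * r) = r * t := by rw [ht]; ring
    omega
  have hLn : (L ^ n) ^ r ≤ 2 ^ (ℓ * r) := by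
    calc (L ^ n) ^ r ≤ (2 ^ ℓ) ^ r := Nat.pow_le_pow_left hN r
      _ = 2 ^ (ℓ * r) := by rw [pow_mul]
  rcases Nat.lt_or_ge t r with hrt | hrt
  · -- trivial bound
    refine (fam_card_trivial n L t D).trans ?_
    calc (L ^ n) ^ t ≤ (L ^ n) ^ r := Nat.pow_le_pow_right (Nat.pos_of_ne_zero (by
            have := NeZero.ne L
            positivity)) hrt.le
      _ ≤ 2 ^ (ℓ * r) := hLn
      _ ≤ 2 ^ (D / 4) := Nat.pow_le_pow_right (by norm_num) (by omega)
  · rcases Nat.lt_or_ge D (100 * l * t) with hreg | hreg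
    · -- small doubling
      set s := 2 * l * D / t + l with hs
      set q := Nat.sqrt (100 * l * t) with hq
      set k := D / t + 1 with hk
      have hq1 : q * q ≤ 100 * l * t := Nat.sqrt_le _
      have hq2 : 100 * l * t < (q + 1) * (q + 1) := Nat.lt_succ_sqrt _
      have hDt : 2000 ≤ D / t := (Nat.le_div_iff_mul_le (by omega)).2 hD
      have hs1 : s ≤ 201 * l ^ 2 := by
        have h1 : 2 * l * D / t ≤ 200 * l ^ 2 := by
          apply Nat.div_le_of_le_mul
          calc 2 * l * D ≤ 2 * l * (100 * l * t) := Nat.mul_le_mul_left _ hreg.le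
            _ = t * (200 * l ^ 2) := by ring
        have h2 : l ≤ l ^ 2 := by nlinarith
        omega
      have hrs : r ≤ s := by
        have h1 : 3 * D / t ≤ 2 * l * D / t := Nat.div_le_div_right (by nlinarith)
        omega
      have hlq : 100 * (l ^ 2 * q) ≤ t := by
        have h1 : (100 * (l ^ 2 * q)) ^ 2 ≤ t ^ 2 := by
          calc (100 * (l ^ 2 * q)) ^ 2 = 10 ^ 4 * l ^ 4 * (q * q) := by ring
            _ ≤ 10 ^ 4 * l ^ 4 * (100 * l * t) := Nat.mul_le_mul_left _ hq1
            _ = (10 ^ 6 * l ^ 5) * t := by ring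
            _ ≤ t * t := Nat.mul_le_mul_right _ hlt
            _ = t ^ 2 := by ring
        exact (Nat.pow_le_pow_iff_left (by norm_num)).1 h1
      have hl2 : 1 ≤ l ^ 2 := Nat.one_le_pow _ _ (by omega)
      have hqt : 100 * q ≤ t := by nlinarith
      have hmain := regime1 n L t D r l s (q + 1) (q + 1) (k ^ 3 * t) (by omega) hr1 hrs
        (by omega) htl (by
          intro c hc
          have h1 : c + 1 - l ≤ 2 * l * D / t := (Nat.le_div_iff_mul_le (by omega)).2 hc
          omega) (by omega) (by omega) (by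
          calc D < 100 * l * t := hreg
            _ ≤ (q + 1) * (q + 1) := hq2.le
            _ ≤ (q + 1 + 1) * (q + 1) := Nat.mul_le_mul_right _ (Nat.le_succ _)) (by
          have h1 : D ≤ k * t := by
            rw [hk, add_mul, one_mul]
            exact (Nat.lt_div_mul_add (a := D) (b := t) (by omega)).le
          calc D ^ 3 ≤ (k * t) ^ 3 := Nat.pow_le_pow_left h1 3
            _ = k ^ 3 * t * t ^ 2 := by ring)
      refine hmain.trans ?_
      have hspos : 1 ≤ s := le_trans (by omega : 1 ≤ l) (Nat.le_add_left _ _)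
      have b1 : (9 ^ s) ^ (s - r) ≤ 2 ^ (4 * s * s) := by
        calc (9 ^ s) ^ (s - r) ≤ (16 ^ s) ^ (s - r) :=
              Nat.pow_le_pow_left (Nat.pow_le_pow_left (by norm_num) s) _
          _ ≤ (16 ^ s) ^ s := Nat.pow_le_pow_right (by positivity) (Nat.sub_le _ _)
          _ = 2 ^ (4 * s * s) := by
              rw [show (16 : ℕ) = 2 ^ 4 by norm_num, ← pow_mul, ← pow_mul]
              congr 1; ring
      have b2 : (L ^ r * (4 * s) ^ (s - r)) ^ n ≤ 2 ^ (ℓ * r) * 2 ^ (2 * s * s * n) := by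
        rw [mul_pow]
        refine Nat.mul_le_mul ?_ ?_
        · rw [← pow_mul, mul_comm r n, pow_mul]
          exact hLn
        · calc ((4 * s) ^ (s - r)) ^ n ≤ ((4 * s) ^ s) ^ n :=
                Nat.pow_le_pow_left (Nat.pow_le_pow_right (by omega) (Nat.sub_le _ _)) n
            _ ≤ ((2 ^ (2 * s)) ^ s) ^ n :=
                Nat.pow_le_pow_left (Nat.pow_le_pow_left (four_mul_le s) s) n
            _ = 2 ^ (2 * s * s * n) := by
                rw [← pow_mul, ← pow_mul]
                congr 1; ring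
      have b3 : (3 ^ s) ^ (q + 1) ≤ 2 ^ (2 * s * (q + 1)) := by
        calc (3 ^ s) ^ (q + 1) ≤ (4 ^ s) ^ (q + 1) :=
              Nat.pow_le_pow_left (Nat.pow_le_pow_left (by norm_num) s) _
          _ = 2 ^ (2 * s * (q + 1)) := by
              rw [show (4 : ℕ) = 2 ^ 2 by norm_num, ← pow_mul, ← pow_mul]
              congr 1; ring
      have b4 : (k ^ 3 * t).choose t ≤ 2 ^ (((k - 1) / 20) * t) := by
        calc (k ^ 3 * t).choose t ≤ (3 * k ^ 3) ^ t := choose_bound k t
          _ ≤ (2 ^ ((k - 1) / 20)) ^ t := Nat.pow_le_pow_left (k_bound k (by omega)) t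
          _ = _ := by rw [← pow_mul]
      calc (9 ^ s) ^ (s - r) * (L ^ r * (4 * s) ^ (s - r)) ^ n *
            ((3 ^ s) ^ (q + 1) * ((3 ^ s) ^ (q + 1) * (k ^ 3 * t).choose t))
          ≤ 2 ^ (4 * s * s) * (2 ^ (ℓ * r) * 2 ^ (2 * s * s * n)) *
            (2 ^ (2 * s * (q + 1)) * (2 ^ (2 * s * (q + 1)) * 2 ^ (((k - 1) / 20) * t))) :=
            Nat.mul_le_mul (Nat.mul_le_mul b1 b2) (Nat.mul_le_mul b3 (Nat.mul_le_mul b3 b4))
        _ = 2 ^ (4 * s * s + (ℓ * r + 2 * s * s * n) +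
            (2 * s * (q + 1) + (2 * s * (q + 1) + ((k - 1) / 20) * t))) := by
            simp only [← pow_add]
        _ ≤ 2 ^ (D / 4) := by
            apply Nat.pow_le_pow_right (by norm_num)
            rw [Nat.le_div_iff_mul_le (by norm_num)]
            have c1 : ((k - 1) / 20) * t * 20 ≤ D := by
              have h1 : (k - 1) / 20 * 20 ≤ k - 1 := Nat.div_mul_le_self _ _
              have h2 : (k - 1) * t ≤ D := by
                rw [hk, Nat.add_sub_cancel]
                exact Nat.div_mul_le_self D t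
              calc (k - 1) / 20 * t * 20 = ((k - 1) / 20 * 20) * t := by ring
                _ ≤ (k - 1) * t := Nat.mul_le_mul_right _ h1
                _ ≤ D := h2
            have c2 : s * s ≤ 40401 * l ^ 4 := by
              calc s * s ≤ (201 * l ^ 2) * (201 * l ^ 2) := Nat.mul_le_mul hs1 hs1
                _ = 40401 * l ^ 4 := by ring
            have c3 : 16 * (s * s) + 8 * (s * s * n) ≤ 10 ^ 6 * l ^ 5 := by
              have h1 : l ^ 4 ≤ l ^ 5 := Nat.pow_le_pow_right (by omega) (by norm_num)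
              have h2 : s * s * n ≤ 40401 * l ^ 5 := by
                calc s * s * n ≤ 40401 * l ^ 4 * l := Nat.mul_le_mul c2 hnl
                  _ = 40401 * l ^ 5 := by ring
              omega
            have c4 : s * (q + 1) ≤ 3 * t := by
              have h1 : s * (q + 1) ≤ 201 * l ^ 2 * (q + 1) := Nat.mul_le_mul_right _ hs1
              have h2 : 201 * l ^ 2 * (q + 1) = 201 * (l ^ 2 * q) + 201 * l ^ 2 := by ring
              have h3 : l ^ 2 ≤ l ^ 5 := Nat.pow_le_pow_right (by omega) (by norm_num)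
              omega
            have e1 : (4 * s * s + (ℓ * r + 2 * s * s * n) +
                (2 * s * (q + 1) + (2 * s * (q + 1) + ((k - 1) / 20) * t))) * 4 =
                (16 * (s * s) + 8 * (s * s * n)) + 4 * (ℓ * r) + 16 * (s * (q + 1)) +
                  4 * ((k - 1) / 20 * t) := by ring
            rw [e1]
            omega
    · -- large doubling
      refine (regime2 n L t D r hr1 hrt).trans ?_
      have b1 : (t ^ 4) ^ (t - r) ≤ 2 ^ (4 * l * t) := by
        calc (t ^ 4) ^ (t - r) ≤ (t ^ 4) ^ t :=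
              Nat.pow_le_pow_right (by positivity) (Nat.sub_le _ _)
          _ ≤ ((2 ^ l) ^ 4) ^ t := Nat.pow_le_pow_left (Nat.pow_le_pow_left htl 4) t
          _ = 2 ^ (4 * l * t) := by
              rw [← pow_mul, ← pow_mul]
              congr 1; ring
      have b2 : (L ^ r * 4 ^ (t - r)) ^ n ≤ 2 ^ (ℓ * r) * 2 ^ (2 * t * n) := by
        rw [mul_pow]
        refine Nat.mul_le_mul ?_ ?_
        · rw [← pow_mul, mul_comm r n, pow_mul]
          exact hLn
        · calc (4 ^ (t - r)) ^ n ≤ (4 ^ t) ^ n :=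
                Nat.pow_le_pow_left (Nat.pow_le_pow_right (by norm_num) (Nat.sub_le _ _)) n
            _ = 2 ^ (2 * t * n) := by
                rw [show (4 : ℕ) = 2 ^ 2 by norm_num, ← pow_mul, ← pow_mul]
                congr 1; ring
      calc (t ^ 4) ^ (t - r) * (L ^ r * 4 ^ (t - r)) ^ n
          ≤ 2 ^ (4 * l * t) * (2 ^ (ℓ * r) * 2 ^ (2 * t * n)) := Nat.mul_le_mul b1 b2
        _ = 2 ^ (4 * l * t + (ℓ * r + 2 * t * n)) := by simp only [← pow_add]
        _ ≤ 2 ^ (D / 4) := by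
            apply Nat.pow_le_pow_right (by norm_num)
            rw [Nat.le_div_iff_mul_le (by norm_num)]
            have h1 : t * n ≤ t * l := Nat.mul_le_mul_left _ hnl
            have e1 : (4 * l * t + (ℓ * r + 2 * t * n)) * 4 =
                16 * (t * l) + 4 * (ℓ * r) + 8 * (t * n) := by ring
            have e2 : 100 * l * t = 100 * (t * l) := by ring
            rw [e1]
            omega

end Pool.Agent.N428.Ram
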